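import Pool.Agent.Lib_MP_418a80_con.CDefs

/-!
# [CON] CFi: subgroups of finite index and layers
-/

set_option autoImplicit false
set_option linter.unusedVariables false
set_option linter.unusedSectionVars false

open Topology Filter MeasureTheory
open scoped RealInnerProductSpace ComplexConjugate

namespace Pool.Agent.AbCoc

universe u v w z

section
variable {G : Type w} [Group G] [TopologicalSpace G] {M N N' : Subgroup G} {g : G}
  {V : Type z} [NormedAddCommGroup V] [InnerProductSpace ℝ V] {p : G → V}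

theorem FiNor.normal (h : FiNor M N) : (M.subgroupOf N).Normal := by
  refine ⟨fun s hs n => ?_⟩
  rw [Subgroup.mem_subgroupOf] at hs ⊢
  exact h.nor n n.2 s hs

theorem FiNor.pow_mem (h : FiNor M N) {s : G} (hs : s ∈ N) : s ^ M.relIndex N ∈ M := by
  have := h.normal
  have h1 := Subgroup.pow_index_mem (M.subgroupOf N) (⟨s, hs⟩ : N)
  rw [Subgroup.mem_subgroupOf] at h1
  exact h1

theorem IsLayer.p_one_c (hp : IsLayer N N' p) : p 1 = 0 := by
  have h := hp.mul 1 N.one_mem 1 N.one_mem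
  rw [mul_one] at h
  simpa using h

theorem IsLayer.p_pow_c (hp : IsLayer N N' p) {s : G} (hs : s ∈ N) (n : ℕ) :
    p (s ^ n) = (n : ℝ) • p s := by
  induction n with
  | zero => rw [pow_zero, hp.p_one_c, Nat.cast_zero, zero_smul]
  | succ n ih =>
    rw [pow_succ, hp.mul _ (N.pow_mem hs n) _ hs, ih, Nat.cast_succ, add_smul, one_smul]

/-- a subgroup of finite index maps onto `V` -/
theorem FiNor.layer (h : FiNor M N) (hp : IsLayer N N' p) : IsLayer M (M ⊓ N') p where
  cont := hp.cont.mono h.le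
  mul s hs t ht := hp.mul s (h.le hs) t (h.le ht)
  surj q := by
    obtain ⟨s, hs, hsq⟩ := hp.surj (((M.relIndex N : ℕ) : ℝ)⁻¹ • q)
    refine ⟨s ^ M.relIndex N, h.pow_mem hs, ?_⟩
    rw [hp.p_pow_c hs, hsq, smul_smul, mul_inv_cancel₀ (Nat.cast_ne_zero.2 h.fin), one_smul]
  ker s hs := by
    rw [hp.ker s (h.le hs), Subgroup.mem_inf]
    exact ⟨fun h1 => ⟨hs, h1⟩, fun h1 => h1.2⟩
  le := inf_le_left

/-- the kernel layer -/
theorem FiNor.inf (h : FiNor M N) (hle : N' ≤ N) (hcl : IsClosed (N' : Set G)) :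
    FiNor (M ⊓ N') N' where
  le := inf_le_right
  closed := by
    rw [Subgroup.coe_inf]
    exact h.closed.inter hcl
  fin := by
    rw [Subgroup.inf_relIndex_right]
    exact mt (Subgroup.relIndex_eq_zero_of_le_right hle) h.fin
  nor n hn s hs := ⟨h.nor n (hle hn) s hs.1, N'.mul_mem (N'.mul_mem hn hs.2) (N'.inv_mem hn)⟩

theorem FiNor.refl_c (hcl : IsClosed (N : Set G)) : FiNor N N where
  le := le_rfl
  closed := hcl
  fin := by
    rw [Subgroup.relIndex_self]
    exact one_ne_zero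
  nor n hn s hs := N.mul_mem (N.mul_mem hn hs) (N.inv_mem hn)

/-- the next layer for a commensurating element which is trivial on the quotient -/
theorem Cms.next (h : Cms N M g) (hp : IsLayer N N' p) (hcl : IsClosed (N' : Set G))
    (hpsi : ∀ s ∈ N, g * s * g⁻¹ ∈ N → p (g * s * g⁻¹) = p s) : Cms N' (M ⊓ N') g where
  fi := h.fi.inf hp.le hcl
  inv s hs := by
    have h1 := h.inv s hs.1
    have e : g * (g⁻¹ * s * g) * g⁻¹ = s := by group
    have h2 : g * (g⁻¹ * s * g) * g⁻¹ ∈ N := by rw [e]; exact hp.le hs.2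
    have h3 := hpsi _ h1 h2
    rw [e, (hp.ker s (hp.le hs.2)).2 hs.2] at h3
    exact (hp.ker _ h1).1 h3.symm
  cnj s hs := by
    have h1 := h.cnj s hs.1
    have h3 := hpsi s (hp.le hs.2) h1
    rw [(hp.ker s (hp.le hs.2)).2 hs.2] at h3
    exact (hp.ker _ h1).1 h3

/-- change of `g` by an element of `N` -/
theorem Cms.shift (h : Cms N M g) {n : G} (hn : n ∈ N) : Cms N M (n⁻¹ * g) where
  fi := h.fi
  inv s hs := by
    have h1 := h.inv (n * s * n⁻¹) (h.fi.nor n hn s hs)
    have e : (n⁻¹ * g)⁻¹ * s * (n⁻¹ * g) = g⁻¹ * (n * s * n⁻¹) * g := by group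
    rw [e]
    exact h1
  cnj s hs := by
    have h1 := h.cnj s hs
    have e : (n⁻¹ * g) * s * (n⁻¹ * g)⁻¹ = n⁻¹ * (g * s * g⁻¹) * n := by group
    rw [e]
    exact N.mul_mem (N.mul_mem (N.inv_mem hn) h1) hn

end

end Pool.Agent.AbCoc
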