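import Pool.Agent.Lib_MP_418a80_con.CDefs
import Pool.Agent.Lib_MP_418a80_on.OnWL

/-!
# [CON] C8: `β` is a scalar on late eigenelements (On8, with `StarP N` instead of KEY, `β` covariant
on `{s : s, g s g⁻¹ ∈ N}` only)
-/


set_option autoImplicit false
set_option linter.unusedVariables false
set_option linter.unusedSectionVars false

open Topology Filter MeasureTheory
open scoped RealInnerProductSpace ComplexConjugate

namespace Pool.Agent.AbCoc

universe u v w z

section
variable {A : Type u} [CStarAlgebra A] {K : Type v} [NormedAddCommGroup K]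
  [InnerProductSpace ℂ K] [CompleteSpace K]
  {G : Type w} [Group G] [TopologicalSpace G] {T : TrAlg A K} (S : TrAct G T)

private theorem hom_norm_le (β : A →⋆ₐ[ℂ] A) (a : A) : ‖β a‖ ≤ ‖a‖ :=
  NonUnitalStarAlgHom.norm_apply_le β a

/-- the basic relation between late eigenelements -/
private theorem rel_of_fix (β : A →⋆ₐ[ℂ] A) {ε : ℝ} {x x' : A} (hx : ‖x‖ ≤ 1) (hx' : ‖x'‖ ≤ 1)
    (h1 : ‖T.ι (β (x * star x) - x * star x)‖ ≤ ε)
    (h2 : ‖T.ι (β (star x * x') - star x * x')‖ ≤ ε) :
    ‖T.ι (x * star x * β x' - β x * star x * x')‖ ≤ 2 * ε := by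
  have e : x * star x * β x' - β x * star x * x'
      = β x * (β (star x * x') - star x * x') - (β (x * star x) - x * star x) * β x' := by
    rw [map_mul, map_mul]
    noncomm_ring
  have hb : ‖β x‖ ≤ 1 := (hom_norm_le β x).trans hx
  have hb' : ‖β x'‖ ≤ 1 := (hom_norm_le β x').trans hx'
  rw [e, map_sub]
  refine (norm_sub_le _ _).trans ?_
  have h3 : ‖T.ι (β x * (β (star x * x') - star x * x'))‖ ≤ ε := by
    refine (T.mul_le _ _).trans ?_
    calc ‖β x‖ * ‖T.ι (β (star x * x') - star x * x')‖ ≤ 1 * ε :=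
          mul_le_mul hb h2 (norm_nonneg _) zero_le_one
      _ = ε := one_mul _
  have h4 : ‖T.ι ((β (x * star x) - x * star x) * β x')‖ ≤ ε := by
    refine (T.mul_le' _ _).trans ?_
    calc ‖T.ι (β (x * star x) - x * star x)‖ * ‖β x'‖ ≤ ε * 1 :=
          mul_le_mul h1 hb' (norm_nonneg _) ((norm_nonneg _).trans h1)
      _ = ε := mul_one _
  linarith

end

section
variable {A : Type u} [CStarAlgebra A] {K : Type v} [NormedAddCommGroup K]
  [InnerProductSpace ℂ K] [CompleteSpace K]
  {G : Type w} [Group G] [TopologicalSpace G] [IsTopologicalGroup G] [T2Space G]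
  [SecondCountableTopology G] [LocallyCompactSpace G] {T : TrAlg A K} (S : TrAct G T)

theorem TrAct.exists_scalE_c {V : Type z} [NormedAddCommGroup V] [InnerProductSpace ℝ V]
    (N N' : Subgroup G) (hN : IsClosed (N : Set G)) (hstar : S.StarP N) (p : G → V)
    (hp : IsLayer N N' p) (heig : S.EigN N p) (β : A →⋆ₐ[ℂ] A) (g : G)
    (M : Subgroup G) (hM : Cms N M g) (hβ : S.Twc N g β)
    (hpsi : ∀ s ∈ N, g * s * g⁻¹ ∈ N → p (g * s * g⁻¹) = p s) (hfix : S.FixC N β) :
    ∃ c : V → ℂ, S.ScalE N p β c := by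
  classical
  -- one scalar
  have main : ∀ q : V, ∃ c : ℂ, ∀ (ε : ℝ) (D : Set G) (κ : ℝ), IsCompact D → D ⊆ (N : Set G) →
      0 < κ → (∀ x, S.NE (fun _ => 1) D κ x → ‖T.ι (β x - x)‖ ≤ ε) →
      ∀ x, S.NE (pch p q) D (κ / 4) x → ‖T.ι (β x - c • x)‖ ≤ 24 * ε := by
    intro q
    obtain ⟨U, hU⟩ : ∃ U : Ultrafilter (OnLv N), U = Ultrafilter.of atTop := ⟨_, rfl⟩
    choose x hx hx8 using fun n : OnLv N => heig.exists_one q n.D n.hD n.hDN n.κ n.hκ
    have hxn : ∀ n, ‖x n‖ ≤ 1 := fun n => (hx n).le
    have hβn : ∀ a : A, ‖β a‖ ≤ ‖a‖ := fun a => NonUnitalStarAlgHom.norm_apply_le β a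
    obtain ⟨W, hW⟩ := T.exists_WL U (fun n => x n * star (x n)) 1 (fun n => by
      refine (norm_mul_le _ _).trans ?_
      rw [norm_star]
      calc ‖x n‖ * ‖x n‖ ≤ 1 * 1 := mul_le_mul (hxn n) (hxn n) (norm_nonneg _) zero_le_one
        _ = 1 := one_mul 1)
    obtain ⟨Γ, hΓ⟩ := T.exists_WL U (fun n => β (x n) * star (x n)) 1 (fun n => by
      refine (norm_mul_le _ _).trans ?_
      rw [norm_star]
      calc ‖β (x n)‖ * ‖x n‖ ≤ 1 * 1 :=
            mul_le_mul ((hβn _).trans (hxn n)) (hxn n) (norm_nonneg _) zero_le_one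
        _ = 1 := one_mul 1)
    have hev : ∀ (D : Set G) (κ : ℝ), IsCompact D → D ⊆ (N : Set G) → 0 < κ →
        ∀ᶠ n in (U : Filter (OnLv N)), S.NE (pch p q) D κ (x n) := by
      intro D κ hD hDN hκ
      have h1 := OnLv.eventually N hD hDN hκ
      rw [← hU] at h1
      filter_upwards [h1] with n hn
      exact (hx n).mono hn.1 hn.2
    -- `W` and `Γ` are fixed by `N`
    have hWfix : ∀ s ∈ N, S.α s W = W := by
      intro s hs
      have h1 := (hW.act S s).sub hW
      refine sub_eq_zero.1 (h1.eq_zero fun ε hε => ?_)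
      filter_upwards [hev {s} (ε / 2) isCompact_singleton (Set.singleton_subset_iff.2 hs)
        (by positivity)] with n hn
      have h2 := (NE.pmul hn hn.pstar)
      rw [add_neg_cancel] at h2
      have h3 := h2.of_zero.ne s rfl
      rw [one_smul] at h3
      calc _ ≤ ε / 2 + ε / 2 := h3
        _ = ε := by ring
    have hΓfix : ∀ s ∈ M, S.α s Γ = Γ := by
      intro s hsM
      have hs : s ∈ N := hM.fi.le hsM
      have h1 := (hΓ.act S s).sub hΓ
      refine sub_eq_zero.1 (h1.eq_zero fun ε hε => ?_)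
      obtain ⟨t, ht⟩ : ∃ t, t = g⁻¹ * s * g := ⟨_, rfl⟩
      have htN : t ∈ N := by
        rw [ht]
        exact hM.inv s hsM
      have hgt : g * t * g⁻¹ = s := by rw [ht]; group
      have hgtN : g * t * g⁻¹ ∈ N := by rw [hgt]; exact hs
      have hpt : p s = p t := by rw [← hgt]; exact hpsi t htN hgtN
      filter_upwards [hev {s, t} (ε / 2) (Set.toFinite _).isCompact (by
        rintro _ (rfl | rfl)
        · exact hs
        · exact htN) (by positivity)] with n hn
      have h2 := hn.ne t (by simp)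
      have h3 := hn.pstar.ne s (by simp)
      have e1 : S.α s (β (x n)) = β (S.α t (x n)) := by rw [hβ.cov t htN hgtN, hgt]
      have e2 : S.α s (β (x n) * star (x n)) - β (x n) * star (x n)
          = β (S.α t (x n) - pch p q t • x n) * S.α s (star (x n))
            + (pch p q t • β (x n)) * (S.α s (star (x n)) - pch p (-q) s • star (x n)) := by
        have e3 : pch p q t * pch p (-q) s = 1 := by
          have h5 := pch_add p q (-q) t
          rw [add_neg_cancel, pch_zero] at h5
          rw [h5]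
          congr 1
          unfold pch
          rw [hpt]
        rw [map_sub, map_smul, sub_mul, mul_sub, map_mul, e1, smul_mul_smul_comm, e3, one_smul]
        abel
      rw [e2, map_add]
      refine (norm_add_le _ _).trans ?_
      have h4 : ‖T.ι (β (S.α t (x n) - pch p q t • x n) * S.α s (star (x n)))‖ ≤ ε / 2 := by
        refine (T.mul_le' _ _).trans ?_
        rw [hβ.iso]
        have h5 : ‖S.α s (star (x n))‖ ≤ 1 := by
          refine (S.norm_le _ _).trans ?_
          rw [norm_star]
          exact hxn n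
        calc _ ≤ ε / 2 * 1 := mul_le_mul h2 h5 (norm_nonneg _) (by positivity)
          _ = ε / 2 := mul_one _
      have h5 : ‖T.ι ((pch p q t • β (x n)) * (S.α s (star (x n)) - pch p (-q) s • star (x n)))‖
          ≤ ε / 2 := by
        refine (T.mul_le _ _).trans ?_
        have h6 : ‖pch p q t • β (x n)‖ ≤ 1 := by
          rw [norm_smul, norm_pch, one_mul]
          exact (hβn _).trans (hxn n)
        calc _ ≤ 1 * (ε / 2) := mul_le_mul h6 h3 (norm_nonneg _) zero_le_one
          _ = ε / 2 := one_mul _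
      linarith
    -- the size of `τ W`
    have hτW : 1 / 8 ≤ (T.τ W).re := by
      have h1 : Tendsto (fun n => (T.τ (x n * star (x n))).re) U (𝓝 (T.τ W).re) :=
        (Complex.continuous_re.tendsto _).comp hW.τ
      refine ge_of_tendsto' h1 fun n => ?_
      have h2 := T.norm_sq (star (x n))
      rw [star_star, T.norm_star] at h2
      rw [← h2]
      linarith [hx8 n]
    have hτW' : 1 / 8 ≤ ‖T.τ W‖ := hτW.trans (Complex.re_le_norm _)
    have hτ0 : T.τ W ≠ 0 := by
      intro h0
      rw [h0, norm_zero] at hτW'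
      norm_num at hτW'
    -- the centre
    obtain ⟨zz, -, hzfix, hzapp, hzint⟩ := S.on_center_pt N (F := Bool)
      (fun b => if b then W else Γ) (fun _ => (1 : G))
    have hsc : ∀ b : Bool, zz b = T.τ (if b then W else Γ) • (1 : A) := by
      intro b
      have hf : ∀ s ∈ M, S.α s (zz b) = zz b := by
        intro h hh
        refine hzfix b h (hM.fi.le hh) (by simpa using hM.fi.le hh) ?_
        cases b
        · exact hΓfix h hh
        · exact hWfix h (hM.fi.le hh)
      have hi : S.Intw (N : Set G) 1 (zz b) := by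
        intro ε hε
        obtain ⟨D, κ, hD, hDN, hκ, hu⟩ := hzint ε hε
        refine ⟨D, κ, hD, hDN, hκ, fun u hu' => ?_⟩
        have h1 := hu u hu' b
        rw [S.one] at h1
        have e : u * zz b - zz b * S.α 1 u = (u * zz b * star u - zz b) * u := by
          rw [S.one, sub_mul, mul_assoc, hu'.uni, mul_one]
        rw [e, T.norm_mul_unitary u hu'.uni']
        exact h1
      have h1 := hstar M hM.fi _ hf hi
      have h2 : T.τ (zz b) = T.τ (if b then W else Γ) := by
        have h3 : ‖T.τ (zz b) - T.τ (if b then W else Γ)‖ ≤ 0 := by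
          refine le_of_forall_pos_le_add fun ε hε => ?_
          rw [zero_add]
          obtain ⟨I, _, u, l, hu, h0, hl, hap⟩ := hzapp ∅ isCompact_empty (Set.empty_subset _) 1
            one_pos ε hε
          have h4 := hap b
          have h5 : T.τ (∑ i, (l i : ℂ) • (u i * (if b then W else Γ) * S.α 1 (star (u i))))
              = T.τ (if b then W else Γ) := by
            have h6 : ∀ i, T.τ (u i * (if b then W else Γ) * S.α 1 (star (u i)))
                = T.τ (if b then W else Γ) := by
              intro i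
              rw [S.one, T.τ_mul_comm, ← mul_assoc, (hu i).uni, one_mul]
            unfold TrAlg.τ at h6 ⊢
            rw [map_sum, inner_sum]
            simp only [map_smul, inner_smul_right, h6]
            rw [← Finset.sum_mul, ← Complex.ofReal_sum, hl, Complex.ofReal_one, one_mul]
          rw [← h5, ← T.τ_sub, ← norm_neg, ← T.τ_neg, neg_sub]
          exact (T.norm_τ_le _).trans h4
        exact sub_eq_zero.1 (norm_le_zero_iff.1 h3)
      rw [h1, h2]
    refine ⟨T.τ Γ / T.τ W, fun ε D κ hD hDN hκ hfx y hy => ?_⟩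
    have hε : 0 ≤ ε := by
      have := hfx 0 ⟨by rw [norm_zero]; exact zero_le_one, fun s _ => by
        rw [smul_zero, map_zero, sub_zero, map_zero, norm_zero]; exact hκ.le⟩
      exact (norm_nonneg _).trans this
    -- the relation for a late eigenelement `x'`
    have hrel : ∀ x', S.NE (pch p q) D (κ / 2) x' → ‖T.ι (W * β x' - Γ * x')‖ ≤ 2 * ε := by
      intro x' hx'
      refine ((hW.mul_right (β x')).sub (hΓ.mul_right x')).norm_le ?_
      filter_upwards [hev D (κ / 2) hD hDN (by positivity)] with n hn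
      refine rel_of_fix β (hxn n) hx'.le (hfx _ ?_) (hfx _ ?_)
      · have h2 := (NE.pmul hn hn.pstar)
        rw [add_neg_cancel, add_halves] at h2
        exact h2.of_zero
      · have h2 := (NE.pmul hn.pstar hx')
        rw [neg_add_cancel, add_halves] at h2
        exact h2.of_zero
    have hWle : ∀ y : A, ‖T.ι (W * y)‖ ≤ ‖T.ι y‖ := by
      intro y
      refine (hW.mul_right y).norm_le (Eventually.of_forall fun n => ?_)
      have h1 : ‖x n * star (x n)‖ ≤ 1 := by
        refine (norm_mul_le _ _).trans ?_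
        rw [norm_star]
        calc ‖x n‖ * ‖x n‖ ≤ 1 * 1 := mul_le_mul (hxn n) (hxn n) (norm_nonneg _) zero_le_one
          _ = 1 := one_mul 1
      refine (T.mul_le _ _).trans ?_
      calc _ ≤ 1 * ‖T.ι y‖ := mul_le_mul_of_nonneg_right h1 (norm_nonneg _)
        _ = _ := one_mul _
    -- conjugation by late unitaries
    have hconj : ∀ u, S.IsNU D (κ / 4) u →
        ‖T.ι ((u * W * star u) * β y - (u * Γ * star u) * y)‖ ≤ 3 * ε := by
      intro u hu
      have h1 : S.NE (pch p q) D (κ / 2) (star u * y) := by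
        have := NE.umul (p := p) hu.star hy
        rwa [show κ / 4 + κ / 4 = κ / 2 by ring] at this
      have h2 := hrel _ h1
      have h3 : ‖T.ι (β (star u) - star u)‖ ≤ ε :=
        hfx _ (hu.star.ne.mono subset_rfl (by linarith))
      have e : (u * W * star u) * β y - (u * Γ * star u) * y
          = u * ((W * β (star u * y) - Γ * (star u * y))
            - W * ((β (star u) - star u) * β y)) := by
        rw [map_mul]
        noncomm_ring
      rw [e, T.norm_unitary_mul u hu.uni, map_sub]
      refine (norm_sub_le _ _).trans ?_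
      have h4 : ‖T.ι (W * ((β (star u) - star u) * β y))‖ ≤ ε := by
        refine (hWle _).trans ((T.mul_le' _ _).trans ?_)
        calc _ ≤ ε * 1 := mul_le_mul h3 ((hβn _).trans hy.le) (norm_nonneg _) hε
          _ = ε := mul_one _
      linarith
    -- the limit
    have hlim : ‖T.ι (T.τ W • β y - T.τ Γ • y)‖ ≤ 3 * ε := by
      refine le_of_forall_pos_le_add fun δ hδ => ?_
      obtain ⟨I, _, u, l, hu, h0, hl, hap⟩ := hzapp D hD hDN (κ / 4) (by positivity) (δ / 2)
        (by positivity)
      obtain ⟨SW, hSW⟩ : ∃ SW : A, SW = ∑ i, (l i : ℂ) • (u i * W * star (u i)) := ⟨_, rfl⟩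
      obtain ⟨SΓ, hSΓ⟩ : ∃ SΓ : A, SΓ = ∑ i, (l i : ℂ) • (u i * Γ * star (u i)) := ⟨_, rfl⟩
      have h1 : ‖T.ι (SW - T.τ W • 1)‖ ≤ δ / 2 := by
        have := hap true
        rw [hsc true] at this
        simpa only [if_true, S.one, ← hSW] using this
      have h2 : ‖T.ι (SΓ - T.τ Γ • 1)‖ ≤ δ / 2 := by
        have := hap false
        rw [hsc false] at this
        simpa only [Bool.false_eq_true, if_false, S.one, ← hSΓ] using this
      have h3 : ‖T.ι (SW * β y - SΓ * y)‖ ≤ 3 * ε := by
        have e : SW * β y - SΓ * y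
            = ∑ i, (l i : ℂ) • ((u i * W * star (u i)) * β y - (u i * Γ * star (u i)) * y) := by
          rw [hSW, hSΓ, Finset.sum_mul, Finset.sum_mul, ← Finset.sum_sub_distrib]
          refine Finset.sum_congr rfl fun i _ => ?_
          rw [smul_mul_assoc, smul_mul_assoc, ← smul_sub]
        rw [e, map_sum]
        simp only [map_smul]
        exact norm_conv_le l h0 hl _ _ fun i => hconj (u i) (hu i)
      have e : T.τ W • β y - T.τ Γ • y
          = (SW * β y - SΓ * y) - (SW - T.τ W • 1) * β y + (SΓ - T.τ Γ • 1) * y := by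
        rw [sub_mul, sub_mul, smul_mul_assoc, smul_mul_assoc, one_mul, one_mul]
        abel
      rw [e, map_add, map_sub]
      have h4 : ‖T.ι ((SW - T.τ W • 1) * β y)‖ ≤ δ / 2 := by
        refine (T.mul_le' _ _).trans ?_
        calc _ ≤ δ / 2 * 1 := mul_le_mul h1 ((hβn _).trans hy.le) (norm_nonneg _) (by positivity)
          _ = δ / 2 := mul_one _
      have h5 : ‖T.ι ((SΓ - T.τ Γ • 1) * y)‖ ≤ δ / 2 := by
        refine (T.mul_le' _ _).trans ?_
        calc _ ≤ δ / 2 * 1 := mul_le_mul h2 hy.le (norm_nonneg _) (by positivity)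
          _ = δ / 2 := mul_one _
      calc _ ≤ ‖T.ι (SW * β y - SΓ * y) - T.ι ((SW - T.τ W • 1) * β y)‖
            + ‖T.ι ((SΓ - T.τ Γ • 1) * y)‖ := norm_add_le _ _
        _ ≤ ‖T.ι (SW * β y - SΓ * y)‖ + ‖T.ι ((SW - T.τ W • 1) * β y)‖
            + ‖T.ι ((SΓ - T.τ Γ • 1) * y)‖ := by gcongr; exact norm_sub_le _ _
        _ ≤ 3 * ε + δ / 2 + δ / 2 := by gcongr
        _ = 3 * ε + δ := by ring
    have e : T.τ W • (β y - (T.τ Γ / T.τ W) • y) = T.τ W • β y - T.τ Γ • y := by
      rw [smul_sub, smul_smul, mul_div_cancel₀ _ hτ0]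
    have h1 : ‖T.τ W‖ * ‖T.ι (β y - (T.τ Γ / T.τ W) • y)‖ ≤ 3 * ε := by
      rw [← norm_smul, ← map_smul, e]
      exact hlim
    have h2 : 1 / 8 * ‖T.ι (β y - (T.τ Γ / T.τ W) • y)‖ ≤ 3 * ε :=
      (mul_le_mul_of_nonneg_right hτW' (norm_nonneg _)).trans h1
    linarith
  choose c hc using main
  refine ⟨c, fun ε hε => ?_⟩
  obtain ⟨D, κ, hD, hDN, hκ, h1⟩ := hfix (ε / 24) (by positivity)
  refine ⟨D, κ / 4, hD, hDN, by positivity, fun q x hx => ?_⟩
  have := hc q (ε / 24) D κ hD hDN hκ h1 x hx
  linarith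

end

end Pool.Agent.AbCoc
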