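import Pool.Agent.Lib_MP_418a80_con.C8
import Pool.Agent.Lib_MP_418a80_con.C11

/-!
# [CON] CStep: vector layers give `NDesc` and `CDesc`
-/

set_option autoImplicit false
set_option linter.unusedVariables false
set_option linter.unusedSectionVars false

open Topology Filter MeasureTheory
open scoped RealInnerProductSpace ComplexConjugate

namespace Pool.Agent.AbCoc

universe u v w z

section
variable {A : Type u} [CStarAlgebra A] {K : Type v} [NormedAddCommGroup K]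
  [InnerProductSpace ℂ K] [CompleteSpace K]
  {G : Type w} [Group G] [TopologicalSpace G] [IsTopologicalGroup G] [T2Space G]
  [SecondCountableTopology G] [LocallyCompactSpace G] {T : TrAlg A K} (S : TrAct G T)

/-- vector layers, normal case -/
theorem TrAct.nDesc_of_layer (m : ℕ) (N N' : Subgroup G) (hN : IsClosed (N : Set G))
    (p : G → EuclideanSpace ℝ (Fin m)) (hp : IsLayer N N' p)
    (hkey : (S.sub N).Key) (heig : S.EigN N p) : S.NDesc N N' := by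
  intro w h1 h2 hw g hg hfix
  obtain ⟨h, hh, hg', hf⟩ := S.descend m N N' hN p hp hkey heig h1 h2 hw g hg hfix
  exact ⟨h, hh, hg', w, h1, h2, fun s hs => hw s (hp.le hs), hf⟩

/-- vector layers, commensurated case -/
theorem TrAct.cDesc_of_layer (m : ℕ) (N N' : Subgroup G) (hN : IsClosed (N : Set G))
    (p : G → EuclideanSpace ℝ (Fin m)) (hp : IsLayer N N' p)
    (hstar : S.StarP N) (heig : S.EigN N p) : S.CDesc N N' := by
  intro w h1 h2 g M hM hw hfix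
  have hTw := S.twc_bw h1 h2 g hw
  have hC := S.fixC_of_fixU N hN _ hTw.iso hfix
  have hpsi := S.psi_zero_c N N' hN p hp heig _ g hTw hC
  obtain ⟨c, hc⟩ := S.exists_scalE_c N N' hN hstar p hp heig _ g M hM hTw hpsi hC
  obtain ⟨v, hv⟩ := S.exists_v N N' hN p hp heig _ hTw.iso hC c hc
  obtain ⟨h, hh, hhv⟩ := hp.surj v
  have hE := S.scalE_one N p _ c hc h hh fun q => by rw [hv, pch, hhv]
  have hh' : h⁻¹ ∈ N := N.inv_mem hh
  have hw1 : star (S.α h⁻¹ w) * S.α h⁻¹ w = 1 := by rw [← map_star, ← map_mul, h1, map_one]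
  have hw2 : S.α h⁻¹ w * star (S.α h⁻¹ w) = 1 := by rw [← map_star, ← map_mul, h2, map_one]
  have he : ∀ a, S.α h⁻¹ (S.bw h1 h2 g a) = S.bw hw1 hw2 (h⁻¹ * g) a := by
    intro a
    rw [S.bw_apply, S.bw_apply, map_mul, map_mul, map_star, ← S.mul]
  have hE' : S.ScalE N p (S.bw hw1 hw2 (h⁻¹ * g)) fun _ => 1 := by
    intro ε hε
    obtain ⟨D, κ, hD, hDN, hκ, h3⟩ := hE ε hε
    exact ⟨D, κ, hD, hDN, hκ, fun q x hx => by rw [← he]; exact h3 q x hx⟩
  have hM' : Cms N M (h⁻¹ * g) := hM.shift hh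
  have hw' : S.WFix N (h⁻¹ * g) (S.α h⁻¹ w) := by
    intro t ht htg
    have e1 : g⁻¹ * (h * t * h⁻¹) * g = (h⁻¹ * g)⁻¹ * t * (h⁻¹ * g) := by group
    have h4 := hw (h * t * h⁻¹) (N.mul_mem (N.mul_mem hh ht) hh') (by rw [e1]; exact htg)
    have e2 : t * h⁻¹ = h⁻¹ * (h * t * h⁻¹) := by group
    rw [← S.mul, e2, S.mul, h4]
  have hTw' := S.twc_bw hw1 hw2 (h⁻¹ * g) hw'
  have hpi : p h⁻¹ + p h = 0 := by
    have h4 := hp.mul _ hh' _ hh
    rw [inv_mul_cancel] at h4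
    rw [← h4, hp.p_one_c]
  have hpsi' : ∀ s ∈ N, (h⁻¹ * g) * s * (h⁻¹ * g)⁻¹ ∈ N →
      p ((h⁻¹ * g) * s * (h⁻¹ * g)⁻¹) = p s := by
    intro s hs hgs
    have e : h⁻¹ * g * s * (h⁻¹ * g)⁻¹ = h⁻¹ * (g * s * g⁻¹) * h := by group
    have hgs' : g * s * g⁻¹ ∈ N := by
      have h3 := N.mul_mem (N.mul_mem hh hgs) hh'
      have e2 : h * (h⁻¹ * g * s * (h⁻¹ * g)⁻¹) * h⁻¹ = g * s * g⁻¹ := by group
      rwa [e2] at h3
    rw [e, hp.mul _ (N.mul_mem hh' hgs') _ hh, hp.mul _ hh' _ hgs', hpsi s hs hgs']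
    calc p h⁻¹ + p s + p h = (p h⁻¹ + p h) + p s := by abel
      _ = p s := by rw [hpi, zero_add]
  have hN'c : IsClosed (N' : Set G) := hp.isClosed_ker hN
  refine ⟨h, hh, M ⊓ N', hM'.next hp hN'c hpsi', S.α h⁻¹ w, hw1, hw2, ?_,
    S.fixU_of_scalE_c m N N' hN p hp heig _ (h⁻¹ * g) M hM' hTw' hpsi' hE'⟩
  intro t ht htg
  exact hw' t (hp.le ht) (hp.le htg)

end

end Pool.Agent.AbCoc
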