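import Pool.Agent.Lib_MP_418a80_con.Cn2a
import Pool.Agent.Lib_MP_418a80_on.On2

/-!
# MP_418a80_an: no intertwiners off an open subgroup `H` (which need not be normal) implies
`StepATyp`

The version of `on/On2` for an open subgroup which need not be normal.
-/

set_option autoImplicit false
set_option linter.unusedVariables false
set_option linter.unusedSectionVars false

open Topology Filter MeasureTheory
open scoped RealInnerProductSpace ComplexConjugate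

namespace Pool.Agent.AbCoc

universe u v w z

section
variable {A : Type u} [CStarAlgebra A] [PartialOrder A] [StarOrderedRing A] {K : Type v}
  [NormedAddCommGroup K] [InnerProductSpace ℂ K] [CompleteSpace K]
  {G : Type w} [Group G] [TopologicalSpace G] [IsTopologicalGroup G] [T2Space G]
  [SecondCountableTopology G] [LocallyCompactSpace G] {T : TrAlg A K} (S : TrAct G T)

/-- the family for given coset weights, for an open subgroup which need not be normal -/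
theorem TrAct.on2_core' (H : Subgroup G)
    (hH : IsOpen (H : Set G)) (hkey : (S.sub H).Key) (hkey2 : ((S.sub H).amp 2).Key)
    (hno : ∀ g, g ∉ H → ∀ z, (∀ h ∈ H, g⁻¹ * h * g ∈ H → S.α h z = z) →
      S.Intw (H : Set G) g z → z = 0)
    (b1 b2 : A) (hf1 : S.Fixed b1) (hf2 : S.Fixed b2) (hs1 : IsSelfAdjoint b1)
    (hs2 : IsSelfAdjoint b2) (hb1 : b1 ≠ 0) (hb2 : b2 ≠ 0) (D : Set G) (hD : IsCompact D)
    (κ0 η : ℝ) (hκ0 : 0 < κ0) (hη : 0 < η) (R : Finset (G ⧸ H)) :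
    ∃ (P : Type) (_ : Fintype P) (w : P → ℝ) (x z : P → A), (∀ p, 0 ≤ w p) ∧ ∑ p, w p = 1 ∧
      (∀ p, x p = b1 * z p * b2) ∧ (∀ p, ‖x p‖ ≤ ‖b1‖ * ‖b2‖) ∧
      (∀ q ∈ R, ∀ q' ∈ R, q ≠ q' →
        ‖T.ι (∑ p, (w p : ℂ) • (star (x p) * S.α (q.out⁻¹ * q'.out) (x p)))‖ ≤ η) ∧
      (∀ q ∈ R, ∀ q' ∈ R, q ≠ q' →
        ‖T.ι (∑ p, (w p : ℂ) • (x p * star (S.α (q.out⁻¹ * q'.out) (x p))))‖ ≤ η) ∧
      (∀ p, ‖T.ι (S.E (x p))‖ ≤ 3 * (‖b1‖ * ‖b2‖ * κ0)) ∧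
      (∀ g ∈ D, ∀ n ∈ H, (∃ q ∈ R, ∃ q' ∈ R, n = q.out⁻¹ * (g * q'.out)) → ∀ p,
        ‖T.ι (S.α n (x p) - x p)‖ ≤ 3 * (‖b1‖ * ‖b2‖ * κ0)) ∧
      ‖T.ι b1‖ ^ 2 * ‖T.ι b2‖ ^ 2 * (3 / 128) ≤ ∑ p, w p * ‖T.ι (x p)‖ ^ 2 := by
  classical
  have hHc : IsClosed (H : Set G) := Subgroup.isClosed_of_isOpen H hH
  have ht1p : 0 < ‖T.ι b1‖ ^ 2 := by
    have : T.ι b1 ≠ 0 := fun h => hb1 (T.inj (by rw [h, map_zero]))
    positivity
  have ht2p : 0 < ‖T.ι b2‖ ^ 2 := by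
    have : T.ι b2 ≠ 0 := fun h => hb2 (T.inj (by rw [h, map_zero]))
    positivity
  -- the error
  obtain ⟨ε0, hε0, hε1, hε2, hε3⟩ : ∃ ε0 : ℝ, 0 < ε0 ∧ ‖b1‖ ^ 2 * ε0 ≤ η ∧ ‖b2‖ ^ 2 * ε0 ≤ η ∧
      ε0 * (‖b2‖ ^ 2 + ‖T.ι b1‖ ^ 2) ≤ ‖T.ι b1‖ ^ 2 * ‖T.ι b2‖ ^ 2 * (1 / 128) := by
    have hM : 0 < ‖b1‖ ^ 2 + ‖b2‖ ^ 2 + ‖T.ι b1‖ ^ 2 := by positivity
    have hm : 0 < min η (‖T.ι b1‖ ^ 2 * ‖T.ι b2‖ ^ 2 * (1 / 128)) := lt_min hη (by positivity)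
    have hmε : (‖b1‖ ^ 2 + ‖b2‖ ^ 2 + ‖T.ι b1‖ ^ 2) *
        (min η (‖T.ι b1‖ ^ 2 * ‖T.ι b2‖ ^ 2 * (1 / 128)) / (‖b1‖ ^ 2 + ‖b2‖ ^ 2 + ‖T.ι b1‖ ^ 2))
        = min η (‖T.ι b1‖ ^ 2 * ‖T.ι b2‖ ^ 2 * (1 / 128)) := by
      field_simp
    obtain ⟨ε0, hε0d⟩ : ∃ ε0, ε0 = min η (‖T.ι b1‖ ^ 2 * ‖T.ι b2‖ ^ 2 * (1 / 128)) /
      (‖b1‖ ^ 2 + ‖b2‖ ^ 2 + ‖T.ι b1‖ ^ 2) := ⟨_, rfl⟩
    rw [← hε0d] at hmε
    have hε0p : 0 < ε0 := by rw [hε0d]; positivity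
    have h1 := min_le_left η (‖T.ι b1‖ ^ 2 * ‖T.ι b2‖ ^ 2 * (1 / 128))
    have h2 := min_le_right η (‖T.ι b1‖ ^ 2 * ‖T.ι b2‖ ^ 2 * (1 / 128))
    have h3 : 0 ≤ ‖b1‖ ^ 2 * ε0 := by positivity
    have h4 : 0 ≤ ‖b2‖ ^ 2 * ε0 := by positivity
    have h5 : 0 ≤ ‖T.ι b1‖ ^ 2 * ε0 := by positivity
    refine ⟨ε0, hε0p, ?_, ?_, ?_⟩ <;> nlinarith
  -- the compact set
  obtain ⟨Kf, hKf⟩ : ∃ Kf : Set G, Kf = ⋃ q ∈ R, ⋃ q' ∈ R,
      ((fun g => q.out⁻¹ * (g * q'.out)) '' D ∩ (H : Set G)) := ⟨_, rfl⟩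
  have hKfc : IsCompact Kf := by
    rw [hKf]
    refine R.finite_toSet.isCompact_biUnion fun q _ => R.finite_toSet.isCompact_biUnion
      fun q' _ => (hD.image ?_).inter_right hHc
    fun_prop
  have hKfH : Kf ⊆ (H : Set G) := by
    rw [hKf]
    intro s hs
    simp only [Set.mem_iUnion] at hs
    obtain ⟨q, _, q', _, h⟩ := hs
    exact h.2
  have hKfm : ∀ g ∈ D, ∀ n ∈ H, (∃ q ∈ R, ∃ q' ∈ R, n = q.out⁻¹ * (g * q'.out)) → n ∈ Kf := by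
    rintro g hg n hn ⟨q, hq, q', hq', rfl⟩
    rw [hKf]
    simp only [Set.mem_iUnion]
    exact ⟨q, hq, q', hq', ⟨g, hg, rfl⟩, hn⟩
  -- the element
  obtain ⟨e, he1, heE, he32, heK⟩ := (S.sub H).exists_off hkey2 (Subtype.val ⁻¹' Kf)
    (hHc.isClosedEmbedding_subtypeVal.isCompact_preimage hKfc) κ0 hκ0
  obtain ⟨Fe, ρ, hρ0, hρ1, hρE⟩ := (S.sub H).exists_avg_family Unit (fun _ => e) (κ0 ^ 2)
    (by positivity)
  have hE : ‖T.ι (∑ g ∈ Fe, (ρ g : ℂ) • S.α (g : G) e)‖ ≤ κ0 := by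
    have h1 : ∑ g ∈ Fe, (ρ g : ℂ) • S.α (g : G) e = (S.sub H).avg Fe ρ e := by
      unfold TrAct.avg
      refine Finset.sum_congr rfl fun g _ => ?_
      rfl
    rw [h1]
    simp only [Finset.univ_unique, Finset.sum_const, Finset.card_singleton, one_smul] at hρE
    rw [heE, sub_zero] at hρE
    exact (abs_le_of_sq_le_sq' hρE.le hκ0.le).2
  obtain ⟨D', hD'⟩ : ∃ D' : Set G, D' = Kf ∪ (Subtype.val '' (Fe : Set H)) := ⟨_, rfl⟩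
  have hD'c : IsCompact D' := by
    rw [hD']
    exact hKfc.union (Fe.finite_toSet.image _).isCompact
  have hD'H : D' ⊆ (H : Set G) := by
    rw [hD']
    rintro s (hs | ⟨g, _, rfl⟩)
    · exact hKfH hs
    · exact g.2
  -- the finite set
  obtain ⟨Fk, hFk⟩ : ∃ Fk : Finset G, Fk = ((R ×ˢ R).filter fun p => p.1 ≠ p.2).image
      (fun p => p.1.out⁻¹ * p.2.out) := ⟨_, rfl⟩
  have hFkm : ∀ q ∈ R, ∀ q' ∈ R, q ≠ q' → q.out⁻¹ * q'.out ∈ Fk := by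
    intro q hq q' hq' hne
    rw [hFk]
    exact Finset.mem_image.2 ⟨(q, q'), Finset.mem_filter.2 ⟨Finset.mem_product.2 ⟨hq, hq'⟩, hne⟩, rfl⟩
  have hFkH : ∀ k ∈ Fk, k ∉ H := by
    intro k hk
    rw [hFk, Finset.mem_image] at hk
    obtain ⟨p, hp, rfl⟩ := hk
    rw [Finset.mem_filter] at hp
    intro h
    rw [← QuotientGroup.eq, QuotientGroup.out_eq', QuotientGroup.out_eq'] at h
    exact hp.2 h
  have hno' : ∀ k ∈ Fk, ∀ z, (∀ h ∈ H, k⁻¹ * h * k ∈ H → S.α h z = z) →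
      S.Intw (H : Set G) k z → z = 0 :=
    fun k hk => hno k (hFkH k hk)
  obtain ⟨J, _, v, l', hv, hl'0, hl'1, hvk, hv1⟩ := S.exists_fam' H hkey Fk hno' (b2 * b2)
    (fun h _ => by rw [map_mul, hf2]) D' hD'c hD'H κ0 ε0 hκ0 hε0
  obtain ⟨I, _, u, l, hu, hl0, hl1, huk, hu1⟩ := S.exists_fam' H hkey Fk hno' (b1 * b1)
    (fun h _ => by rw [map_mul, hf1]) D' hD'c hD'H κ0 ε0 hκ0 hε0
  have hnorm : ∀ {q : A}, S.IsNU D' κ0 q → ‖q‖ ≤ 1 := by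
    intro q hq
    have h1 : ‖q‖ * ‖q‖ ≤ 1 := by
      rw [← CStarRing.norm_star_mul_self, hq.uni]
      exact T.on_one_le
    nlinarith [norm_nonneg q]
  have hun : ∀ i, ‖u i‖ ≤ 1 := fun i => hnorm (hu i)
  have hvn : ∀ j, ‖v j‖ ≤ 1 := fun j => hnorm (hv j)
  refine ⟨I × J, inferInstance, fun p => l p.1 * l' p.2, onx b1 b2 e u v,
    fun p => star (u p.1) * e * v p.2, fun p => mul_nonneg (hl0 _) (hl'0 _), ?_, fun p => rfl,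
    onx_norm_le he1 hun hvn, ?_, ?_, ?_, ?_, ?_⟩
  · rw [Fintype.sum_prod_type]
    simp only [← Finset.mul_sum, hl'1, mul_one, hl1]
  · intro q hq q' hq' hne
    refine (S.onx_mixR _ (hf1 _) (hf2 _) hs1 hs2 he1 hvn hl'0 hl'1
      (huk _ (hFkm q hq q' hq' hne))).trans hε2
  · intro q hq q' hq' hne
    refine (S.onx_mixL _ (hf1 _) (hf2 _) hs1 hs2 he1 hun hl0 hl1
      (hvk _ (hFkm q hq q' hq' hne))).trans hε1
  · intro p
    refine S.onx_E hf1 hf2 he1 hun hvn Fe (fun g : H => (g : G)) ρ hρ0 hρ1 hE p ?_ ?_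
    · intro g hg
      exact (hu _).near _ (by rw [hD']; exact Or.inr ⟨g, hg, rfl⟩)
    · intro g hg
      exact (hv _).near _ (by rw [hD']; exact Or.inr ⟨g, hg, rfl⟩)
  · intro g hg n hn hex p
    have hnK : n ∈ Kf := hKfm g hg n hn hex
    have hnD : n ∈ D' := by rw [hD']; exact Or.inl hnK
    exact TrAct.onx_near (hf1 n) (hf2 n) he1 hun hvn p ((hu _).near _ hnD)
      (heK ⟨n, hn⟩ hnK) ((hv _).near _ hnD)
  · have h1 := T.onx_mass hs1 hs2 he1 hvn hl0 hl'0 hl'1 hu1 hv1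
    have h2 : ‖T.ι b1‖ ^ 2 * ‖T.ι b2‖ ^ 2 * (1 / 32) ≤ ‖T.ι b1‖ ^ 2 * ‖T.ι b2‖ ^ 2 * ‖T.ι e‖ ^ 2 :=
      mul_le_mul_of_nonneg_left he32 (by positivity)
    linarith

end

section
variable {A : Type u} [CStarAlgebra A] [PartialOrder A] [StarOrderedRing A] {K : Type v} [NormedAddCommGroup K]
  [InnerProductSpace ℂ K] [CompleteSpace K]
  {G : Type w} [Group G] [TopologicalSpace G] [IsTopologicalGroup G] [T2Space G]
  [SecondCountableTopology G] [LocallyCompactSpace G] [MeasurableSpace G] [BorelSpace G]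
  (μ : Measure G) [μ.IsHaarMeasure] {T : TrAlg A K} (S : TrAct G T)

/-- **no intertwiners off the open subgroup `H` implies `StepATyp`** (`H` need not be normal) -/
theorem TrAct.stepATyp_of_no_intw' (hR : Reiter μ) (H : Subgroup G)
    (hH : IsOpen (H : Set G)) (hkey : (S.sub H).Key) (hkey2 : ((S.sub H).amp 2).Key)
    (hno : ∀ g, g ∉ H → ∀ z, (∀ h ∈ H, g⁻¹ * h * g ∈ H → S.α h z = z) →
      S.Intw (H : Set G) g z → z = 0) :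
    S.StepATyp := by
  classical
  refine S.stepATyp_of_stepAW ?_
  intro b1 b2 hf1 hf2 hs1 hs2 hb1 hb2
  have ht1p : 0 < ‖T.ι b1‖ ^ 2 := by
    have : T.ι b1 ≠ 0 := fun h => hb1 (T.inj (by rw [h, map_zero]))
    positivity
  have ht2p : 0 < ‖T.ι b2‖ ^ 2 := by
    have : T.ι b2 ≠ 0 := fun h => hb2 (T.inj (by rw [h, map_zero]))
    positivity
  obtain ⟨t, ht⟩ : ∃ t, t = ‖T.ι b1‖ ^ 2 * ‖T.ι b2‖ ^ 2 := ⟨_, rfl⟩
  have htp : 0 < t := by rw [ht]; positivity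
  obtain ⟨B, hB⟩ : ∃ B, B = ‖b1‖ * ‖b2‖ := ⟨_, rfl⟩
  have hB0 : 0 ≤ B := by rw [hB]; positivity
  refine ⟨B ^ 2, t / 64, by positivity, ?_⟩
  intro D hD κ hκ y
  obtain ⟨κF, hκF⟩ : ∃ κF, κF = κ / (8 * (B ^ 2 + 1)) := ⟨_, rfl⟩
  have hκFp : 0 < κF := by rw [hκF]; positivity
  have hκFB : κF * B ^ 2 ≤ κ / 8 := by
    have : κF * (B ^ 2 + 1) = κ / 8 := by rw [hκF]; field_simp
    nlinarith
  obtain ⟨R, F, hF0, hFR, hFD, hF1, hFκ⟩ := exists_reiter_coset_c μ H hH hR D hD κF hκFp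
  have hFle : ∀ q, F q ≤ 1 := by
    intro q
    by_cases hq : q ∈ R
    · rw [← hF1]
      exact Finset.single_le_sum (fun q _ => hF0 q) hq
    · rw [hFR q hq]; exact zero_le_one
  obtain ⟨c, hc⟩ : ∃ c : G ⧸ H → ℝ, ∀ q, c q = √(F q) := ⟨_, fun _ => rfl⟩
  have hc0 : ∀ q, 0 ≤ c q := fun q => by rw [hc]; exact Real.sqrt_nonneg _
  have hc1 : ∀ q, c q ≤ 1 := fun q => by
    rw [hc]
    exact Real.sqrt_le_one.2 (hFle q)
  have hcR : ∀ q ∉ R, c q = 0 := fun q hq => by rw [hc, hFR q hq, Real.sqrt_zero]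
  have hcD : ∀ s ∈ D, ∀ q ∉ R, c (s⁻¹ • q) = 0 := fun s hs q hq => by
    rw [hc, hFD s hs q hq, Real.sqrt_zero]
  have hcs : ∑ q ∈ R, c q ^ 2 = 1 := by
    rw [← hF1]
    refine Finset.sum_congr rfl fun q _ => ?_
    rw [hc, Real.sq_sqrt (hF0 q)]
  obtain ⟨n, hn⟩ : ∃ n : ℝ, n = R.card + 1 := ⟨_, rfl⟩
  have hn1 : 1 ≤ n := by rw [hn]; have : (0 : ℝ) ≤ R.card := Nat.cast_nonneg _; linarith
  have hcard : (R.card : ℝ) ≤ n := by rw [hn]; linarith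
  have habs : ∀ d : G ⧸ H → ℝ, (∀ q, |d q| ≤ 1) → (∑ q ∈ R, |d q|) ≤ n := by
    intro d hd
    refine (Finset.sum_le_sum fun q _ => hd q).trans ?_
    rw [Finset.sum_const, nsmul_eq_mul, mul_one]
    exact hcard
  have habs2 : ∀ d : G ⧸ H → ℝ, (∀ q, |d q| ≤ 1) → (∑ q ∈ R, |d q|) ^ 2 ≤ n ^ 2 := fun d hd =>
    pow_le_pow_left₀ (Finset.sum_nonneg fun q _ => abs_nonneg _) (habs d hd) 2
  have hcabs : ∀ q, |c q| ≤ 1 := fun q => by rw [abs_of_nonneg (hc0 q)]; exact hc1 q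
  -- constants
  obtain ⟨κ0, hκ0, hδ⟩ : ∃ κ0 : ℝ, 0 < κ0 ∧ (n * (3 * (B * κ0))) ^ 2 ≤ κ / 9 := by
    refine ⟨√κ / (9 * n * (B + 1)), by positivity, ?_⟩
    have h1 : n * (3 * (B * (√κ / (9 * n * (B + 1))))) = √κ / 3 * (B / (B + 1)) := by
      field_simp
      ring
    have h2 : B / (B + 1) ≤ 1 := by rw [div_le_one (by positivity)]; linarith
    have h3 : 0 ≤ B / (B + 1) := by positivity
    rw [h1, mul_pow, div_pow, Real.sq_sqrt hκ.le]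
    have h4 : (B / (B + 1)) ^ 2 ≤ 1 := pow_le_one₀ h3 h2
    nlinarith
  obtain ⟨η, hη, hη1, hη2, hη3⟩ : ∃ η : ℝ, 0 < η ∧ n ^ 2 * η ≤ κ / 8 ∧
      n ^ 2 * (η * ‖y‖ ^ 2) ≤ κ / 8 ∧ n ^ 2 * η ≤ t * (1 / 128) := by
    obtain ⟨m, hm⟩ : ∃ m, m = min (κ / (8 * (‖y‖ ^ 2 + 1))) (t * (1 / 128)) := ⟨_, rfl⟩
    have hmp : 0 < m := by rw [hm]; exact lt_min (by positivity) (by positivity)
    have hm1 : m ≤ κ / (8 * (‖y‖ ^ 2 + 1)) := by rw [hm]; exact min_le_left _ _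
    have hm2 : m ≤ t * (1 / 128) := by rw [hm]; exact min_le_right _ _
    have hm3 : m * (‖y‖ ^ 2 + 1) ≤ κ / 8 := by
      have h := mul_le_mul_of_nonneg_right hm1 (show 0 ≤ ‖y‖ ^ 2 + 1 by positivity)
      have h' : κ / (8 * (‖y‖ ^ 2 + 1)) * (‖y‖ ^ 2 + 1) = κ / 8 := by field_simp
      linarith
    have hnm : n ^ 2 * (m / n ^ 2) = m := by field_simp
    refine ⟨m / n ^ 2, by positivity, ?_, ?_, ?_⟩
    · rw [hnm]
      nlinarith [mul_nonneg hmp.le (sq_nonneg ‖y‖)]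
    · rw [← mul_assoc, hnm]
      linarith
    · rw [hnm]
      exact hm2
  obtain ⟨P, _, w, x, z, hw, hw1, hxz, hxB, hηR, hηL, hxE, hxD, hmass⟩ :=
    S.on2_core' H hH hkey hkey2 hno b1 b2 hf1 hf2 hs1 hs2 hb1 hb2 D hD κ0 η hκ0 hη R
  rw [← hB] at hxB hxE hxD
  rw [← ht] at hmass
  have hδ0 : 0 ≤ 3 * (B * κ0) := by positivity
  refine ⟨P, inferInstance, fun p => ((√(w p) : ℝ) : ℂ) • S.cosum R c (x p),
    fun p => ((√(w p) : ℝ) : ℂ) • S.cosum R c (z p), ?_, ?_, ?_, ?_, ?_, ?_⟩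
  · intro p
    beta_reduce
    rw [hxz p, S.cosum_mul R c b1 b2 (z p) hf1 hf2, mul_smul_comm, smul_mul_assoc]
  · have h1 := S.cosum_mass R hη.le hηR c
    rw [hcs, one_mul] at h1
    have h2 : (∑ q ∈ R, |c q|) ^ 2 * η ≤ n ^ 2 * η :=
      mul_le_mul_of_nonneg_right (habs2 c hcabs) hη.le
    have h3 : ∑ p, ‖T.ι (((√(w p) : ℝ) : ℂ) • S.cosum R c (x p))‖ ^ 2
        = ∑ p, w p * ‖T.ι (S.cosum R c (x p))‖ ^ 2 :=
      Finset.sum_congr rfl fun p _ => T.on_sqrt_smul (hw p) _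
    rw [h3]
    linarith
  · have h1 : ∀ p, ‖T.ι (S.E (((√(w p) : ℝ) : ℂ) • S.cosum R c (x p)))‖ ^ 2
        ≤ w p * (κ / 9) := by
      intro p
      rw [S.E_smul, T.on_sqrt_smul (hw p)]
      refine mul_le_mul_of_nonneg_left ?_ (hw p)
      refine le_trans (pow_le_pow_left₀ (norm_nonneg _) ?_ 2) hδ
      refine (S.norm_E_cosum R c (x p) (hxE p)).trans ?_
      exact mul_le_mul_of_nonneg_right (habs c hcabs) hδ0
    refine (Finset.sum_le_sum fun p _ => h1 p).trans ?_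
    rw [← Finset.sum_mul, hw1]
    linarith
  · intro g hg
    obtain ⟨d, hd⟩ : ∃ d : G ⧸ H → ℝ, d = fun q => c (g⁻¹ • q) - c q := ⟨_, rfl⟩
    have hd1 : ∀ q, |d q| ≤ 1 := by
      intro q
      rw [hd, abs_le]
      constructor <;> linarith [hc0 q, hc1 q, hc0 (g⁻¹ • q), hc1 (g⁻¹ • q)]
    have hd2 : ∑ q ∈ R, d q ^ 2 ≤ κF := by
      refine le_trans (Finset.sum_le_sum fun q _ => ?_) (hFκ g hg)
      rw [hd]
      beta_reduce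
      rw [hc, hc]
      exact on_sqrt_sub_sq (hF0 _) (hF0 _)
    have h1 : ∑ p, w p * ‖T.ι (S.cosum R d (x p))‖ ^ 2 ≤ κ / 4 := by
      have h2 := S.cosum_right R hw hw1 hη.le hxB hηR d 1
      simp only [mul_one] at h2
      rw [T.norm_one, one_pow, mul_one] at h2
      have h3 : η * ‖(1 : A)‖ ^ 2 ≤ η := by
        have : ‖(1 : A)‖ ^ 2 ≤ 1 := pow_le_one₀ (norm_nonneg _) T.on_one_le
        nlinarith
      have h4 : (∑ q ∈ R, |d q|) ^ 2 * (η * ‖(1 : A)‖ ^ 2) ≤ n ^ 2 * η :=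
        mul_le_mul (habs2 d hd1) h3 (by positivity) (by positivity)
      have h5 : (∑ q ∈ R, d q ^ 2) * B ^ 2 ≤ κF * B ^ 2 :=
        mul_le_mul_of_nonneg_right hd2 (by positivity)
      linarith
    have h6 : ∀ p, ‖T.ι (S.α g (((√(w p) : ℝ) : ℂ) • S.cosum R c (x p))
        - ((√(w p) : ℝ) : ℂ) • S.cosum R c (x p))‖ ^ 2
        ≤ w p * (2 * (κ / 9)) + 2 * (w p * ‖T.ι (S.cosum R d (x p))‖ ^ 2) := by
      intro p
      rw [map_smul, ← smul_sub, T.on_sqrt_smul (hw p),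
        S.α_cosum' R g c (x p) hcR (hcD g hg), ← hd, map_add]
      have h7 := S.on_shift_le' R g c (x p) hcR hc0 hc1 hδ0 (fun n hn hex => hxD g hg n hn hex p)
      have h8 : ‖T.ι (∑ q ∈ R, (c (g⁻¹ • q) : ℂ) •
          (S.α (g * (g⁻¹ • q).out) (x p) - S.α q.out (x p)))‖ ^ 2 ≤ κ / 9 :=
        le_trans (pow_le_pow_left₀ (norm_nonneg _)
          (h7.trans (mul_le_mul_of_nonneg_right hcard hδ0)) 2) hδ
      have h9 := norm_add_le (T.ι (∑ q ∈ R, (c (g⁻¹ • q) : ℂ) •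
          (S.α (g * (g⁻¹ • q).out) (x p) - S.α q.out (x p))))
          (T.ι (S.cosum R d (x p)))
      have h10 : ‖T.ι (∑ q ∈ R, (c (g⁻¹ • q) : ℂ) •
          (S.α (g * (g⁻¹ • q).out) (x p) - S.α q.out (x p)))
          + T.ι (S.cosum R d (x p))‖ ^ 2 ≤ 2 * (κ / 9) + 2 * ‖T.ι (S.cosum R d (x p))‖ ^ 2 := by
        refine (pow_le_pow_left₀ (norm_nonneg _) h9 2).trans ?_
        nlinarith [sq_nonneg (‖T.ι (∑ q ∈ R, (c (g⁻¹ • q) : ℂ) •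
          (S.α (g * (g⁻¹ • q).out) (x p) - S.α q.out (x p)))‖
          - ‖T.ι (S.cosum R d (x p))‖)]
      have h11 := mul_le_mul_of_nonneg_left h10 (hw p)
      linarith
    refine (Finset.sum_le_sum fun p _ => h6 p).trans ?_
    rw [Finset.sum_add_distrib, ← Finset.sum_mul, hw1, ← Finset.mul_sum]
    linarith
  · have h1 := S.cosum_right R hw hw1 hη.le hxB hηR c y
    rw [hcs, one_mul] at h1
    have h2 : (∑ q ∈ R, |c q|) ^ 2 * (η * ‖y‖ ^ 2) ≤ n ^ 2 * (η * ‖y‖ ^ 2) :=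
      mul_le_mul_of_nonneg_right (habs2 c hcabs) (by positivity)
    have h3 : ∑ p, ‖T.ι (((√(w p) : ℝ) : ℂ) • S.cosum R c (x p) * y)‖ ^ 2
        = ∑ p, w p * ‖T.ι (S.cosum R c (x p) * y)‖ ^ 2 :=
      Finset.sum_congr rfl fun p _ => by rw [smul_mul_assoc, T.on_sqrt_smul (hw p)]
    rw [h3]
    linarith
  · have h1 := S.cosum_left R hw hw1 hη.le hxB hηL c y
    rw [hcs, one_mul] at h1
    have h2 : (∑ q ∈ R, |c q|) ^ 2 * (η * ‖y‖ ^ 2) ≤ n ^ 2 * (η * ‖y‖ ^ 2) :=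
      mul_le_mul_of_nonneg_right (habs2 c hcabs) (by positivity)
    have h3 : ∑ p, ‖T.ι (y * ((√(w p) : ℝ) : ℂ) • S.cosum R c (x p))‖ ^ 2
        = ∑ p, w p * ‖T.ι (y * S.cosum R c (x p))‖ ^ 2 :=
      Finset.sum_congr rfl fun p _ => by rw [mul_smul_comm, T.on_sqrt_smul (hw p)]
    rw [h3]
    linarith

end

end Pool.Agent.AbCoc
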