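import Pool.Agent.Lib_MP_418a80_con.Star2
import Pool.Agent.Lib_MP_418a80_con.CStep
import Pool.Agent.Lib_MP_418a80_con.Cn2
import Pool.Agent.Lib_MP_418a80_cn.CN5
import Pool.Agent.Lib_MP_418a80_on.OnClass

/-!
# [CON] CClass: open subgroups which are not normal, for `KeyAll`

`L` is an open, commensurated subgroup of `G` with a tower of closed subgroups down to a compact
group; then `KeyAll G`. The layers are given by `NDescAll`, `CDescAll` (vector layers:
`NDescAll.of_layer`, `CDescAll.of_layer`).
-/

set_option autoImplicit false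
set_option linter.unusedVariables false
set_option linter.unusedSectionVars false

open Topology Filter MeasureTheory
open scoped RealInnerProductSpace ComplexConjugate

namespace Pool.Agent.AbCoc

universe u v w z

/-- `NDesc N N'` for all strictly outer actions -/
structure NDescAll.{u', v', w'} {G : Type w'} [Group G] [TopologicalSpace G]
    (N N' : Subgroup G) : Prop where
  out : ∀ [IsTopologicalGroup G] [T2Space G] [SecondCountableTopology G] [LocallyCompactSpace G]
    [MeasurableSpace G] [BorelSpace G] (μ : Measure G) [μ.IsHaarMeasure], Reiter μ →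
    ∀ (A : Type u') [CStarAlgebra A] (K : Type v') [NormedAddCommGroup K] [InnerProductSpace ℂ K]
      [CompleteSpace K] (T : TrAlg A K) (S : TrAct G T), S.SO μ Set.univ → S.NDesc N N'

/-- `CDesc N N'` for all strictly outer actions -/
structure CDescAll.{u', v', w'} {G : Type w'} [Group G] [TopologicalSpace G]
    (N N' : Subgroup G) : Prop where
  out : ∀ [IsTopologicalGroup G] [T2Space G] [SecondCountableTopology G] [LocallyCompactSpace G]
    [MeasurableSpace G] [BorelSpace G] (μ : Measure G) [μ.IsHaarMeasure], Reiter μ →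
    ∀ (A : Type u') [CStarAlgebra A] (K : Type v') [NormedAddCommGroup K] [InnerProductSpace ℂ K]
      [CompleteSpace K] (T : TrAlg A K) (S : TrAct G T), S.SO μ Set.univ → S.CDesc N N'

/-- `StarP N` for all strictly outer actions -/
structure StarAll.{u', v', w'} {G : Type w'} [Group G] [TopologicalSpace G]
    (N : Subgroup G) : Prop where
  out : ∀ [IsTopologicalGroup G] [T2Space G] [SecondCountableTopology G] [LocallyCompactSpace G]
    [MeasurableSpace G] [BorelSpace G] (μ : Measure G) [μ.IsHaarMeasure], Reiter μ →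
    ∀ (A : Type u') [CStarAlgebra A] (K : Type v') [NormedAddCommGroup K] [InnerProductSpace ℂ K]
      [CompleteSpace K] (T : TrAlg A K) (S : TrAct G T), S.SO μ Set.univ → S.StarP N

/-- towers for `NDescAll`, with a compact bottom -/
inductive NTw.{u', v', w'} {G : Type w'} [Group G] [TopologicalSpace G] : Subgroup G → Prop
  | bot (B : Subgroup G) (hB : IsCompact (B : Set G)) : NTw B
  | step (N N' : Subgroup G) (hle : N' ≤ N) (hd : NDescAll.{u', v', w'} N N') (h : NTw N') : NTw N

/-- towers for `CDescAll`, with a compact bottom -/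
inductive CTw.{u', v', w'} {G : Type w'} [Group G] [TopologicalSpace G] : Subgroup G → Prop
  | bot (B : Subgroup G) (hB : IsCompact (B : Set G)) : CTw B
  | step (N N' : Subgroup G) (hle : N' ≤ N) (hd : CDescAll.{u', v', w'} N N') (h : CTw N') : CTw N

section
variable {A : Type u} [CStarAlgebra A] {K : Type v}
  [NormedAddCommGroup K] [InnerProductSpace ℂ K] [CompleteSpace K]
  {G : Type w} [Group G] [TopologicalSpace G] [IsTopologicalGroup G] [T2Space G]
  [SecondCountableTopology G] [LocallyCompactSpace G] [MeasurableSpace G] [BorelSpace G]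
  (μ : Measure G) [μ.IsHaarMeasure] {T : TrAlg A K} (S : TrAct G T)

include μ

theorem TrAct.fixK_of_SO (hSO : S.SO μ Set.univ) : S.FixK := by
  intro B hB w h1 h2 g hfix
  exact S.mem_of_fixU_compact μ hSO B hB h1 h2 g hfix

theorem TrAct.nTower_of_nTw (hR : Reiter μ) (hSO : S.SO μ Set.univ) {N : Subgroup G}
    (h : NTw.{u, v, w} N) : S.NTower N := by
  induction h with
  | bot B hB => exact TrAct.NTower.bot B hB
  | step N N' hle hd _ ih => exact TrAct.NTower.step N N' hle (hd.out μ hR A K T S hSO) ih

theorem TrAct.dTower_of_cTw (hR : Reiter μ) (hSO : S.SO μ Set.univ) {N : Subgroup G}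
    (h : CTw.{u, v, w} N) : S.DTower N := by
  induction h with
  | bot B hB => exact TrAct.DTower.bot B hB
  | step N N' hle hd _ ih => exact TrAct.DTower.step N N' hle (hd.out μ hR A K T S hSO) ih

end

section
variable {G : Type w} [Group G] [TopologicalSpace G] {N N' : Subgroup G}

theorem key_eig_of_keyAll {A : Type u} [CStarAlgebra A] {K : Type v}
    [NormedAddCommGroup K] [InnerProductSpace ℂ K] [CompleteSpace K]
    [IsTopologicalGroup G] [T2Space G]
    [SecondCountableTopology G] [LocallyCompactSpace G] [MeasurableSpace G] [BorelSpace G]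
    (μ : Measure G) [μ.IsHaarMeasure] {T : TrAlg A K} (S : TrAct G T) (hR : Reiter μ)
    (hSO : S.SO μ Set.univ) {m : ℕ}
    {p : G → EuclideanSpace ℝ (Fin m)} (hN : IsClosed (N : Set G)) (hp : IsLayer N N' p)
    (hK : KeyAll.{u, v, w} N) : (S.sub N).Key ∧ S.EigN N p := by
  have : LocallyCompactSpace N := hN.isClosedEmbedding_subtypeVal.locallyCompactSpace
  have : SecondCountableTopology N :=
    inferInstanceAs (SecondCountableTopology ((N : Set G) : Set G))
  let := CStarAlgebra.spectralOrder A
  have := CStarAlgebra.spectralOrderedRing A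
  refine ⟨?_, ?_⟩
  · exact hK.key_cm μ S N.subtype continuous_subtype_val hN.isClosedEmbedding_subtypeVal hR hSO
  · exact S.eigN_of_key hp fun χ hχ => hK.key_twist μ S N.subtype continuous_subtype_val
      hN.isClosedEmbedding_subtypeVal hR hSO 2 (tw2 χ) (tw2_cont hχ)

/-- vector layers, normal case -/
theorem NDescAll.of_layer {m : ℕ} {p : G → EuclideanSpace ℝ (Fin m)}
    (hN : IsClosed (N : Set G)) (hp : IsLayer N N' p) (hK : KeyAll.{u, v, w} N) :
    NDescAll.{u, v, w} N N' := by
  refine ⟨fun μ _ hR A _ K _ _ _ T S hSO => ?_⟩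
  obtain ⟨h1, h2⟩ := key_eig_of_keyAll μ S hR hSO hN hp hK
  exact S.nDesc_of_layer m N N' hN p hp h1 h2

/-- vector layers, commensurated case -/
theorem CDescAll.of_layer {m : ℕ} {p : G → EuclideanSpace ℝ (Fin m)}
    (hN : IsClosed (N : Set G)) (hp : IsLayer N N' p) (hK : KeyAll.{u, v, w} N)
    (hstar : StarAll.{u, v, w} N) : CDescAll.{u, v, w} N N' := by
  refine ⟨fun μ _ hR A _ K _ _ _ T S hSO => ?_⟩
  obtain ⟨h1, h2⟩ := key_eig_of_keyAll μ S hR hSO hN hp hK
  exact S.cDesc_of_layer m N N' hN p hp (hstar.out μ hR A K T S hSO) h2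

/-- **`StarAll`** from `KeyAll` and towers of the subgroups of finite index -/
theorem StarAll.of (hK : ∀ M : Subgroup G, FiNor M N → KeyAll.{u, v, w} M)
    (hT : ∀ M : Subgroup G, FiNor M N → NTw.{u, v, w} M) : StarAll.{u, v, w} N := by
  refine ⟨fun μ _ hR A _ K _ _ _ T S hSO => ?_⟩
  refine S.starP_of (S.fixK_of_SO μ hSO) N (fun M hM => ?_)
    fun M hM => S.nTower_of_nTw μ hR hSO (hT M hM)
  have hc := hM.closed
  have : LocallyCompactSpace M := hc.isClosedEmbedding_subtypeVal.locallyCompactSpace
  have : SecondCountableTopology M :=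
    inferInstanceAs (SecondCountableTopology ((M : Set G) : Set G))
  exact (hK M hM).key_cm μ S M.subtype continuous_subtype_val hc.isClosedEmbedding_subtypeVal hR
    hSO

/-- **the open step for a commensurated subgroup** -/
theorem keyAll_of_commensurated [IsTopologicalGroup G] [T2Space G] [SecondCountableTopology G]
    [LocallyCompactSpace G] (L : Subgroup G) (hL : IsOpen (L : Set G)) (hK : KeyAll.{u, v, w} L)
    (hstar : StarAll.{u, v, w} L) (hT : CTw.{u, v, w} L) (hcms : ∀ g, ∃ M, Cms L M g) :
    KeyAll.{u, v, w} G := by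
  refine keyAll_of_stepATyp fun ν _ hR A _ K _ _ _ T S hSO => ?_
  let := CStarAlgebra.spectralOrder A
  have := CStarAlgebra.spectralOrderedRing A
  have hcl : IsClosed (L : Set G) := L.isClosed_of_isOpen hL
  have : LocallyCompactSpace L := hcl.isClosedEmbedding_subtypeVal.locallyCompactSpace
  have : SecondCountableTopology L :=
    inferInstanceAs (SecondCountableTopology ((L : Set G) : Set G))
  exact S.stepATyp_of_no_intw' ν hR L hL
    (hK.key_cm ν S L.subtype continuous_subtype_val hcl.isClosedEmbedding_subtypeVal hR hSO)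
    (hK.key_amp ν S L.subtype continuous_subtype_val hcl.isClosedEmbedding_subtypeVal hR hSO 2)
    (S.no_intw_of_dtower (S.fixK_of_SO ν hSO) L (hstar.out ν hR A K T S hSO)
      (S.dTower_of_cTw ν hR hSO hT) hcms)

end

end Pool.Agent.AbCoc
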