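import Pool.Agent.Lib_MP_418a80_on.OnStep

/-!
# MP_418a80_an, [CON]: open subgroups that are not normal (board notes 2393 (C) and helper94)

`L` is open in `G` and commensurated; `L = L_0 > L_1 > .. > L_k = K` closed, `K` compact,
`L_(i+1)` the kernel of a continuous homomorphism of `L_i` onto `ℝ^(m_i)`, `m_i > 0`. Definitions,
a version of the hull lemma which keeps track of the elements that fix the limit, and the unitary
intertwiner.
-/

set_option autoImplicit false
set_option linter.unusedVariables false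
set_option linter.unusedSectionVars false

open Topology Filter MeasureTheory
open scoped RealInnerProductSpace ComplexConjugate

namespace Pool.Agent.AbCoc

universe u v w z

section
variable {G : Type w} [Group G] [TopologicalSpace G]

/-- `M` is a closed subgroup of finite index of `N`, normalised by `N` -/
structure FiNor (M N : Subgroup G) : Prop where
  le : M ≤ N
  closed : IsClosed (M : Set G)
  fin : M.relIndex N ≠ 0
  nor : ∀ n ∈ N, ∀ s ∈ M, n * s * n⁻¹ ∈ M

/-- conjugation by `g` and by `g⁻¹` maps the subgroup `M` of finite index of `N` into `N` -/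
structure Cms (N M : Subgroup G) (g : G) : Prop where
  fi : FiNor M N
  inv : ∀ s ∈ M, g⁻¹ * s * g ∈ N
  cnj : ∀ s ∈ M, g * s * g⁻¹ ∈ N

end

section
variable {A : Type u} [CStarAlgebra A] {K : Type v} [NormedAddCommGroup K]
  [InnerProductSpace ℂ K] [CompleteSpace K]
  {G : Type w} [Group G] [TopologicalSpace G] {T : TrAlg A K} (S : TrAct G T)

/-- `w` is fixed by `{t ∈ N : g⁻¹ t g ∈ N}` -/
def TrAct.WFix (N : Subgroup G) (g : G) (w : A) : Prop :=
  ∀ t ∈ N, g⁻¹ * t * g ∈ N → S.α t w = w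

/-- `β` is `2`-norm preserving and intertwines `α_s` and `α_(g s g⁻¹)`, `s, g s g⁻¹ ∈ N` -/
structure TrAct.Twc (N : Subgroup G) (g : G) (β : A → A) : Prop where
  iso : ∀ a, ‖T.ι (β a)‖ = ‖T.ι a‖
  cov : ∀ s ∈ N, g * s * g⁻¹ ∈ N → ∀ a, β (S.α s a) = S.α (g * s * g⁻¹) (β a)

/-- for every `M` of finite index in `N`, the `M`-fixed elements which commute with late
near-`N`-invariant unitaries are scalars -/
def TrAct.StarP (N : Subgroup G) : Prop :=
  ∀ M : Subgroup G, FiNor M N → ∀ d : A, (∀ s ∈ M, S.α s d = d) → S.Intw (N : Set G) 1 d →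
    d = T.τ d • (1 : A)

/-- one step of the descent, for `g` which normalises `N` and `N`-fixed `w` -/
def TrAct.NDesc (N N' : Subgroup G) : Prop :=
  ∀ (w : A) (h1 : star w * w = 1) (h2 : w * star w = 1), (∀ s ∈ N, S.α s w = w) → ∀ g : G,
    (∀ s, s ∈ N ↔ g * s * g⁻¹ ∈ N) → S.FixU N (S.bw h1 h2 g) →
    ∃ h ∈ N, (∀ s, s ∈ N' ↔ (h⁻¹ * g) * s * (h⁻¹ * g)⁻¹ ∈ N') ∧
      ∃ (w' : A) (h1' : star w' * w' = 1) (h2' : w' * star w' = 1),
        (∀ s ∈ N', S.α s w' = w') ∧ S.FixU N' (S.bw h1' h2' (h⁻¹ * g))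

/-- one step of the descent, for `g` which commensurates `N` -/
def TrAct.CDesc (N N' : Subgroup G) : Prop :=
  ∀ (w : A) (h1 : star w * w = 1) (h2 : w * star w = 1) (g : G) (M : Subgroup G),
    Cms N M g → S.WFix N g w → S.FixU N (S.bw h1 h2 g) →
    ∃ h ∈ N, ∃ M' : Subgroup G, Cms N' M' (h⁻¹ * g) ∧
      ∃ (w' : A) (h1' : star w' * w' = 1) (h2' : w' * star w' = 1),
        S.WFix N' (h⁻¹ * g) w' ∧ S.FixU N' (S.bw h1' h2' (h⁻¹ * g))

/-- towers for `NDesc`, with a compact bottom -/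
inductive TrAct.NTower : Subgroup G → Prop
  | bot (B : Subgroup G) (hB : IsCompact (B : Set G)) : TrAct.NTower B
  | step (N N' : Subgroup G) (hle : N' ≤ N) (hd : S.NDesc N N') (h : TrAct.NTower N') :
      TrAct.NTower N

/-- towers for `CDesc`, with a compact bottom -/
inductive TrAct.DTower : Subgroup G → Prop
  | bot (B : Subgroup G) (hB : IsCompact (B : Set G)) : TrAct.DTower B
  | step (N N' : Subgroup G) (hle : N' ≤ N) (hd : S.CDesc N N') (h : TrAct.DTower N') :
      TrAct.DTower N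

/-- the bottom: `Ad w ∘ α_g` fixes the near-`B`-invariant unitaries only if `g ∈ B`, `B` compact
(proved in `Lib_MP_418a80_cn` for strictly outer actions) -/
def TrAct.FixK : Prop :=
  ∀ B : Subgroup G, IsCompact (B : Set G) → ∀ (w : A) (h1 : star w * w = 1)
    (h2 : w * star w = 1) (g : G), S.FixU B (S.bw h1 h2 g) → g ∈ B

theorem TrAct.mem_of_ntower (hF : S.FixK) {N : Subgroup G} (ht : S.NTower N) :
    ∀ (w : A) (h1 : star w * w = 1) (h2 : w * star w = 1), (∀ s ∈ N, S.α s w = w) → ∀ g : G,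
      (∀ s, s ∈ N ↔ g * s * g⁻¹ ∈ N) → S.FixU N (S.bw h1 h2 g) → g ∈ N := by
  induction ht with
  | bot B hB =>
    intro w h1 h2 _ g _ hfix
    exact hF B hB w h1 h2 g hfix
  | step N N' hle hd _ ih =>
    intro w h1 h2 hw g hg hfix
    obtain ⟨h, hh, hg', w', h1', h2', hw', hf⟩ := hd w h1 h2 hw g hg hfix
    have h3 := ih w' h1' h2' hw' (h⁻¹ * g) hg' hf
    have h4 := N.mul_mem hh (hle h3)
    rwa [mul_inv_cancel_left] at h4

theorem TrAct.mem_of_dtower (hF : S.FixK) {N : Subgroup G} (ht : S.DTower N) :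
    ∀ (w : A) (h1 : star w * w = 1) (h2 : w * star w = 1) (g : G) (M : Subgroup G),
      Cms N M g → S.WFix N g w → S.FixU N (S.bw h1 h2 g) → g ∈ N := by
  induction ht with
  | bot B hB =>
    intro w h1 h2 g _ _ _ hfix
    exact hF B hB w h1 h2 g hfix
  | step N N' hle hd _ ih =>
    intro w h1 h2 g M hM hw hfix
    obtain ⟨h, hh, M', hM', w', h1', h2', hw', hf⟩ := hd w h1 h2 g M hM hw hfix
    have h3 := ih w' h1' h2' (h⁻¹ * g) M' hM' hw' hf
    have h4 := N.mul_mem hh (hle h3)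
    rwa [mul_inv_cancel_left] at h4

end

section
variable {A : Type u} [CStarAlgebra A] {K : Type v} [NormedAddCommGroup K]
  [InnerProductSpace ℂ K] [CompleteSpace K]
  {G : Type w} [Group G] [TopologicalSpace G] [IsTopologicalGroup G] {T : TrAlg A K}
  (S : TrAct G T)

/-- the hull lemma: the limit `z_j` is fixed by every `h ∈ H` with `k_j⁻¹ h k_j ∈ H` which fixes
`a_j` -/
theorem TrAct.on_center_pt (H : Subgroup G) {F : Type} [Fintype F] (a : F → A) (k : F → G) :
    ∃ z : F → A, (∀ j, ‖T.ι (z j)‖ ≤ ‖a j‖) ∧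
      (∀ j, ∀ h ∈ H, (k j)⁻¹ * h * k j ∈ H → S.α h (a j) = a j → S.α h (z j) = z j) ∧
      (∀ D : Set G, IsCompact D → D ⊆ (H : Set G) → ∀ κ : ℝ, 0 < κ → ∀ ε : ℝ, 0 < ε →
        ∃ (I : Type) (_ : Fintype I) (u : I → A) (l : I → ℝ), (∀ i, S.IsNU D κ (u i)) ∧
          (∀ i, 0 ≤ l i) ∧ ∑ i, l i = 1 ∧
          ∀ j, ‖T.ι (∑ i, (l i : ℂ) • (u i * a j * S.α (k j) (star (u i))) - z j)‖ ≤ ε) ∧
      ∀ ε : ℝ, 0 < ε → ∃ (D : Set G) (κ : ℝ), IsCompact D ∧ D ⊆ (H : Set G) ∧ 0 < κ ∧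
        ∀ u : A, S.IsNU D κ u → ∀ j, ‖T.ι (u * z j * S.α (k j) (star u) - z j)‖ ≤ ε := by
  obtain ⟨z, hz1, -, hz3, hz4⟩ := S.on_center' H a k
  refine ⟨z, hz1, fun j h hh hkH haj => ?_, hz3, hz4⟩
  have key : ∀ ε : ℝ, 0 < ε → ‖T.ι (S.α h (z j) - z j)‖ ≤ 2 * ε + 2 * ε * ‖a j‖ := by
    intro ε hε
    obtain ⟨I, _, u, l, hu, h0, h1, hx⟩ := hz3 {h, (k j)⁻¹ * h * k j}
      (Set.Finite.isCompact (by simp)) (by
        rintro _ (rfl | rfl)
        · exact hh
        · exact hkH) ε hε ε hε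
    obtain ⟨b, hb⟩ : ∃ b : A, b = ∑ i, (l i : ℂ) • (u i * a j * S.α (k j) (star (u i))) :=
      ⟨_, rfl⟩
    have h2 : ‖T.ι (b - z j)‖ ≤ ε := by rw [hb]; exact hx j
    have h3 : ‖T.ι (S.α h b - b)‖ ≤ 2 * ε * ‖a j‖ := by
      have e : S.α h b - b
          = ∑ i, (l i : ℂ) • (S.α h (u i * a j * S.α (k j) (star (u i)))
            - u i * a j * S.α (k j) (star (u i))) := by
        rw [hb, map_sum, ← Finset.sum_sub_distrib]
        refine Finset.sum_congr rfl fun i _ => ?_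
        rw [map_smul, smul_sub]
      rw [e, map_sum]
      simp only [map_smul]
      exact norm_conv_le l h0 h1 _ _ fun i =>
        (hu i).near_hull (k j) h (a j) haj (by simp) (by simp)
    have e2 : S.α h (z j) - z j = S.α h (z j - b) + (S.α h b - b) + (b - z j) := by
      rw [map_sub]; abel
    rw [e2, map_add, map_add]
    have h4 : ‖T.ι (S.α h (z j - b))‖ ≤ ε := by
      rw [S.norm_map, ← neg_sub, map_neg, norm_neg]
      exact h2
    calc _ ≤ ‖T.ι (S.α h (z j - b))‖ + ‖T.ι (S.α h b - b)‖ + ‖T.ι (b - z j)‖ :=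
          norm_add₃_le
      _ ≤ ε + 2 * ε * ‖a j‖ + ε := by gcongr
      _ = 2 * ε + 2 * ε * ‖a j‖ := by ring
  have h0 : ‖T.ι (S.α h (z j) - z j)‖ ≤ 0 := by
    refine le_of_forall_pos_le_add fun ε hε => ?_
    have hp : 0 < 2 + 2 * ‖a j‖ := by positivity
    have := key (ε / (2 + 2 * ‖a j‖)) (by positivity)
    have e : 2 * (ε / (2 + 2 * ‖a j‖)) + 2 * (ε / (2 + 2 * ‖a j‖)) * ‖a j‖ = ε := by
      field_simp
    rw [e] at this
    linarith
  have h1 : T.ι (S.α h (z j) - z j) = T.ι 0 := by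
    rw [map_zero]
    exact norm_le_zero_iff.1 h0
  exact sub_eq_zero.1 (T.inj h1)

/-- from the hull lemma to intertwiners -/
theorem TrAct.intw_of_late (H : Subgroup G) (k : G) (z : A)
    (h : ∀ ε : ℝ, 0 < ε → ∃ (D : Set G) (κ : ℝ), IsCompact D ∧ D ⊆ (H : Set G) ∧ 0 < κ ∧
        ∀ u : A, S.IsNU D κ u → ‖T.ι (u * z * S.α k (star u) - z)‖ ≤ ε) :
    S.Intw (H : Set G) k z := by
  intro ε hε
  obtain ⟨D, κ, hD, hDH, hκ, h1⟩ := h ε hε
  refine ⟨D, κ, hD, hDH, hκ, fun q hq => ?_⟩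
  have e : q * z - z * S.α k q = (q * z * S.α k (star q) - z) * S.α k q := by
    rw [sub_mul, mul_assoc (q * z), ← map_mul, hq.uni, map_one, mul_one]
  have h2 : S.α k q * star (S.α k q) = 1 := by
    rw [← map_star, ← map_mul, hq.uni', map_one]
  rw [e, T.norm_mul_unitary _ h2]
  exact h1 q hq

/-- a nonzero intertwiner gives a unitary one; `hsc` is used for `z z*` -/
theorem TrAct.exists_bw_c (N : Subgroup G) {z : A} {g : G}
    (hsc : S.Intw (N : Set G) 1 (z * star z) → z * star z = T.τ (z * star z) • (1 : A))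
    (hz : S.Intw (N : Set G) g z) (h0 : z ≠ 0) :
    ∃ (w : A) (h1 : star w * w = 1) (h2 : w * star w = 1), (∀ s, S.α s z = z → S.α s w = w) ∧
      S.FixU N (S.bw h1 h2 g) := by
  have hint : S.Intw (N : Set G) 1 (z * star z) := by
    intro ε hε
    obtain ⟨D, κ, hD, hDN, hκ, h1⟩ := hz (ε / (2 * (‖z‖ + 1))) (by positivity)
    refine ⟨D, κ, hD, hDN, hκ, fun q hq => ?_⟩
    have h2 := h1 q hq
    have h3 := h1 (star q) hq.star
    have e : q * (z * star z) - z * star z * S.α 1 q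
        = (q * z - z * S.α g q) * star z - z * star (star q * z - z * S.α g (star q)) := by
      rw [S.one, star_sub, star_mul, star_mul, star_star, map_star, star_star]
      noncomm_ring
    rw [e, map_sub]
    refine (norm_sub_le _ _).trans ?_
    have h4 : ‖T.ι ((q * z - z * S.α g q) * star z)‖ ≤ (ε / (2 * (‖z‖ + 1))) * ‖z‖ := by
      refine (T.mul_le' _ _).trans ?_
      rw [norm_star]
      exact mul_le_mul_of_nonneg_right h2 (norm_nonneg _)
    have h5 : ‖T.ι (z * star (star q * z - z * S.α g (star q)))‖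
        ≤ ‖z‖ * (ε / (2 * (‖z‖ + 1))) := by
      refine (T.mul_le _ _).trans ?_
      rw [T.norm_star]
      exact mul_le_mul_of_nonneg_left h3 (norm_nonneg _)
    have h6 : (ε / (2 * (‖z‖ + 1))) * ‖z‖ ≤ ε / 2 := by
      rw [div_mul_eq_mul_div, div_le_div_iff₀ (by positivity) (by norm_num)]
      nlinarith [norm_nonneg z]
    linarith
  have hsc := hsc hint
  -- the scalar is positive
  obtain ⟨r, hr⟩ : ∃ r : ℝ, r = ‖T.ι (star z)‖ ^ 2 := ⟨_, rfl⟩
  have hτ : T.τ (z * star z) = (r : ℂ) := by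
    have h := T.inner_eq_τ (star z) (star z)
    rw [star_star] at h
    rw [← h, hr, inner_self_eq_norm_sq_to_K]
    norm_cast
  have hr0 : 0 < r := by
    rw [hr, T.norm_star]
    have h1 : 0 < ‖T.ι z‖ := by
      rw [norm_pos_iff]
      intro h
      exact h0 (T.inj (by rw [h, map_zero]))
    positivity
  rw [hτ] at hsc
  obtain ⟨c, hc⟩ : ∃ c : ℝ, c = (Real.sqrt r)⁻¹ := ⟨_, rfl⟩
  have hcc : c * c * r = 1 := by
    rw [hc]
    have h1 := Real.mul_self_sqrt hr0.le
    have h2 : Real.sqrt r ≠ 0 := (Real.sqrt_pos.2 hr0).ne'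
    field_simp
    nlinarith
  obtain ⟨w, hw⟩ : ∃ w : A, w = (c : ℂ) • z := ⟨_, rfl⟩
  have hws : star w = (c : ℂ) • star z := by
    rw [hw, star_smul, Complex.star_def, Complex.conj_ofReal]
  have h2 : w * star w = 1 := by
    rw [hws, hw, smul_mul_smul_comm, hsc, smul_smul, ← Complex.ofReal_mul, ← Complex.ofReal_mul,
      hcc, Complex.ofReal_one, one_smul]
  have h1 : star w * w = 1 := by
    have h3 : ‖T.ι (1 - star w * w)‖ ^ 2 = 0 := by
      have e : star (1 - star w * w) * (1 - star w * w) = 1 - star w * w := by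
        rw [star_sub, star_one, star_mul, star_star, mul_sub, mul_one, sub_mul, one_mul]
        have e2 : star w * w * (star w * w) = star w * w := by
          rw [mul_assoc, ← mul_assoc w, h2, one_mul]
        rw [e2, sub_self, sub_zero]
      rw [T.norm_sq, e, T.τ_sub, T.τ_one, T.τ_mul_comm, h2, T.τ_one, sub_self, Complex.zero_re]
    have h4 : T.ι (1 - star w * w) = 0 := norm_eq_zero.1 (pow_eq_zero_iff two_ne_zero |>.1 h3)
    exact (sub_eq_zero.1 (T.inj (by rw [h4, map_zero]))).symm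
  refine ⟨w, h1, h2, fun s hs => by rw [hw, map_smul, hs], fun ε hε => ?_⟩
  obtain ⟨D, κ, hD, hDN, hκ, h3⟩ := hz (ε / (|c| + 1)) (by positivity)
  refine ⟨D, κ, hD, hDN, hκ, fun q hq => ?_⟩
  have e : S.bw h1 h2 g q - q = -((c : ℂ) • (q * z - z * S.α g q)) * star w := by
    rw [S.bw_apply, smul_sub, neg_sub, sub_mul]
    congr 1
    · rw [hw, smul_mul_assoc]
    · have e3 : (c : ℂ) • (q * z) = q * w := by rw [hw, mul_smul_comm]
      rw [e3, mul_assoc, h2, mul_one]
  have hwu : star w * star (star w) = 1 := by rw [star_star]; exact h1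
  rw [e, T.norm_mul_unitary _ hwu, map_neg, norm_neg, map_smul, norm_smul, Complex.norm_real,
    Real.norm_eq_abs]
  have h4 := h3 q hq
  calc |c| * ‖T.ι (q * z - z * S.α g q)‖ ≤ (|c| + 1) * (ε / (|c| + 1)) :=
        mul_le_mul (by linarith) h4 (norm_nonneg _) (by positivity)
    _ = ε := by field_simp

/-- `Ad w ∘ α_g` intertwines -/
theorem TrAct.twc_bw {N : Subgroup G} {w : A} (h1 : Star.star w * w = 1)
    (h2 : w * Star.star w = 1) (g : G) (hw : S.WFix N g w) : S.Twc N g (S.bw h1 h2 g) := by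
  refine ⟨S.norm_bw h1 h2 g, fun s hs hgs a => ?_⟩
  have e : g⁻¹ * (g * s * g⁻¹) * g = s := by group
  have hwf : S.α (g * s * g⁻¹) w = w := hw _ hgs (by rw [e]; exact hs)
  rw [S.bw_apply, S.bw_apply, map_mul, map_mul, map_star, hwf, ← S.mul, ← S.mul]
  congr 3
  congr 1
  group

end

end Pool.Agent.AbCoc
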