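import Pool.Agent.Lib_MP_418a80_con.CClass
import Pool.Agent.Lib_MP_418a80_cn.CN4
import Pool.Agent.Lib_MP_418a80_t3.KeyIso

/-!
# [CON] CGlue: open subgroups `L` with a compact normal subgroup `B` such that `L / B` has a tower

The tower of `L / B` is pulled back to `G`; it ends in `B`. Subgroups of finite index and open
subgroups of the members `N` of the pulled back tower meet every coset of `B` in `N`. So the closed
subgroups of finite index have KEY (compact normal subgroup, [CN]) and `L` is commensurated.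
-/

set_option autoImplicit false
set_option linter.unusedVariables false
set_option linter.unusedSectionVars false

open Topology Filter MeasureTheory
open scoped RealInnerProductSpace ComplexConjugate

namespace Pool.Agent.AbCoc

universe u v w z

section alg
variable {G : Type w} [Group G] [TopologicalSpace G] (L B : Subgroup G)
  [hn : (B.subgroupOf L).Normal]

/-- the preimage in `G` of a subgroup of `L / B` -/
def preL (R : Subgroup (L ⧸ B.subgroupOf L)) : Subgroup G :=
  (R.comap (QuotientGroup.mk' (B.subgroupOf L))).map L.subtype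

variable {L B}

theorem mem_preL {R : Subgroup (L ⧸ B.subgroupOf L)} {g : G} :
    g ∈ preL L B R ↔ ∃ h : g ∈ L, (QuotientGroup.mk (⟨g, h⟩ : L) : L ⧸ B.subgroupOf L) ∈ R := by
  unfold preL
  rw [Subgroup.mem_map]
  constructor
  · rintro ⟨x, hx, rfl⟩
    exact ⟨x.2, hx⟩
  · rintro ⟨h, hR⟩
    exact ⟨⟨g, h⟩, hR, rfl⟩

theorem preL_le (R : Subgroup (L ⧸ B.subgroupOf L)) : preL L B R ≤ L := fun g hg =>
  (mem_preL.1 hg).1

theorem preL_mono {R R' : Subgroup (L ⧸ B.subgroupOf L)} (h : R ≤ R') :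
    preL L B R ≤ preL L B R' := fun g hg => by
  obtain ⟨h1, h2⟩ := mem_preL.1 hg
  exact mem_preL.2 ⟨h1, h h2⟩

theorem preL_top : preL L B ⊤ = L := by
  ext g
  rw [mem_preL]
  exact ⟨fun h => h.1, fun h => ⟨h, Subgroup.mem_top _⟩⟩

theorem preL_bot (hB : B ≤ L) : preL L B ⊥ = B := by
  ext g
  rw [mem_preL]
  constructor
  · rintro ⟨h, h1⟩
    rw [Subgroup.mem_bot, QuotientGroup.eq_one_iff, Subgroup.mem_subgroupOf] at h1
    exact h1
  · intro hg
    refine ⟨hB hg, ?_⟩
    rw [Subgroup.mem_bot, QuotientGroup.eq_one_iff, Subgroup.mem_subgroupOf]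
    exact hg

theorem le_preL (hB : B ≤ L) (R : Subgroup (L ⧸ B.subgroupOf L)) : B ≤ preL L B R := by
  have h := preL_mono (L := L) (B := B) (bot_le : ⊥ ≤ R)
  rwa [preL_bot hB] at h

variable (L B) in
/-- a function on `L / B` as a function on `G` -/
noncomputable def extL {V : Type z} [Zero V] (p : L ⧸ B.subgroupOf L → V) (g : G) : V :=
  open Classical in if h : g ∈ L then p (QuotientGroup.mk ⟨g, h⟩) else 0

theorem extL_apply {V : Type z} [Zero V] (p : L ⧸ B.subgroupOf L → V) {g : G} (h : g ∈ L) :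
    extL L B p g = p (QuotientGroup.mk ⟨g, h⟩) := by
  unfold extL
  rw [dif_pos h]

/-- the projection of `preL R` onto `R` -/
def toR (R : Subgroup (L ⧸ B.subgroupOf L)) : preL L B R →* R where
  toFun x := ⟨QuotientGroup.mk (⟨x, preL_le R x.2⟩ : L), (mem_preL.1 x.2).2⟩
  map_one' := rfl
  map_mul' x y := rfl

theorem toR_surjective (R : Subgroup (L ⧸ B.subgroupOf L)) : Function.Surjective (toR (B := B) R) := by
  rintro ⟨q, hq⟩
  obtain ⟨x, rfl⟩ := QuotientGroup.mk_surjective q
  exact ⟨⟨x, mem_preL.2 ⟨x.2, hq⟩⟩, rfl⟩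

theorem toR_continuous (R : Subgroup (L ⧸ B.subgroupOf L)) : Continuous (toR (B := B) R) := by
  refine Continuous.subtype_mk ?_ _
  exact QuotientGroup.continuous_mk.comp (Continuous.subtype_mk continuous_subtype_val _)

theorem toR_eq_one (R : Subgroup (L ⧸ B.subgroupOf L)) (x : preL L B R) :
    toR R x = 1 ↔ (x : G) ∈ B := by
  have e : toR R x = 1 ↔ (QuotientGroup.mk (⟨x, preL_le R x.2⟩ : L) : L ⧸ B.subgroupOf L) = 1 :=
    Subtype.ext_iff
  rw [e, QuotientGroup.eq_one_iff, Subgroup.mem_subgroupOf]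

end alg

section top
variable {G : Type w} [Group G] [TopologicalSpace G] [IsTopologicalGroup G] {L B : Subgroup G}
  [hn : (B.subgroupOf L).Normal]

theorem preL_closed (hL : IsClosed (L : Set G)) {R : Subgroup (L ⧸ B.subgroupOf L)}
    (hR : IsClosed (R : Set (L ⧸ B.subgroupOf L))) : IsClosed (preL L B R : Set G) := by
  have e : (preL L B R : Set G) = (Subtype.val : L → G) ''
      ((QuotientGroup.mk : L → L ⧸ B.subgroupOf L) ⁻¹' (R : Set (L ⧸ B.subgroupOf L))) := by
    ext g
    constructor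
    · intro hg
      obtain ⟨h1, h2⟩ := mem_preL.1 hg
      exact ⟨⟨g, h1⟩, h2, rfl⟩
    · rintro ⟨x, hx, rfl⟩
      exact mem_preL.2 ⟨x.2, hx⟩
  rw [e]
  exact hL.isClosedMap_subtype_val _ (hR.preimage QuotientGroup.continuous_mk)

theorem IsLayer.pre {V : Type z} [NormedAddCommGroup V] [InnerProductSpace ℝ V]
    {R R' : Subgroup (L ⧸ B.subgroupOf L)} {p : L ⧸ B.subgroupOf L → V} (hp : IsLayer R R' p) :
    IsLayer (preL L B R) (preL L B R') (extL L B p) where
  cont := by
    rw [continuousOn_iff_continuous_domRestrict]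
    have h1 : Continuous ((R : Set (L ⧸ B.subgroupOf L)).domRestrict p) :=
      continuousOn_iff_continuous_domRestrict.1 hp.cont
    have h2 := h1.comp (toR_continuous (B := B) R)
    refine h2.congr fun x => ?_
    exact (extL_apply p (preL_le R x.2)).symm
  mul s hs t ht := by
    have h1 := preL_le R hs
    have h2 := preL_le R ht
    rw [extL_apply p h1, extL_apply p h2, extL_apply p (L.mul_mem h1 h2)]
    exact hp.mul _ (mem_preL.1 hs).2 _ (mem_preL.1 ht).2
  surj q := by
    obtain ⟨s, hs, hsq⟩ := hp.surj q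
    obtain ⟨x, rfl⟩ := QuotientGroup.mk_surjective s
    exact ⟨x, mem_preL.2 ⟨x.2, hs⟩, by rw [extL_apply p x.2]; exact hsq⟩
  ker s hs := by
    have h1 := preL_le R hs
    rw [extL_apply p h1, hp.ker _ (mem_preL.1 hs).2]
    exact ⟨fun h => mem_preL.2 ⟨h1, h⟩, fun h => (mem_preL.1 h).2⟩
  le := preL_mono hp.le

/-- subgroups of finite index of a member of the tower meet every coset of `B` -/
theorem KTower.fin_mul {R : Subgroup (L ⧸ B.subgroupOf L)}
    (hT : KTower.{u, v, w} R) (hB : B ≤ L) (hL : IsClosed (L : Set G)) :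
    ∀ M : Subgroup G, FiNor M (preL L B R) → ∀ s ∈ preL L B R, ∃ b ∈ B, s * b ∈ M := by
  induction hT with
  | bot =>
    intro M hM s hs
    rw [preL_bot hB] at hs
    exact ⟨s⁻¹, B.inv_mem hs, by rw [mul_inv_cancel]; exact M.one_mem⟩
  | step N N' m p hm hN hp hK h ih =>
    intro M hM s hs
    have hp' := hp.pre (B := B)
    obtain ⟨t, ht, hts⟩ := (hM.layer hp').surj (extL L B p s)
    have htN := hM.le ht
    have hc' : IsClosed (preL L B N' : Set G) :=
      hp'.isClosed_ker (preL_closed hL hN)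
    have h1 : t⁻¹ * s ∈ preL L B N' := by
      have h2 := (preL L B N).mul_mem ((preL L B N).inv_mem htN) hs
      refine (hp'.ker _ h2).1 ?_
      rw [hp'.p_inv_mul htN hs, hts, sub_self]
    obtain ⟨b, hb, hbM⟩ := ih (M ⊓ preL L B N') (hM.inf hp'.le hc') _ h1
    refine ⟨b, hb, ?_⟩
    have h3 := M.mul_mem ht hbM.1
    have e : t * (t⁻¹ * s * b) = s * b := by group
    rwa [e] at h3

variable [T2Space G] [SecondCountableTopology G] [LocallyCompactSpace G]

/-- open subgroups meet every coset of `B` in a member of the tower -/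
theorem KTower.open_mul {R : Subgroup (L ⧸ B.subgroupOf L)}
    (hT : KTower.{u, v, w} R) (hB : B ≤ L) (hL : IsClosed (L : Set G)) (U : Subgroup G)
    (hU : IsOpen (U : Set G)) : ∀ s ∈ preL L B R, ∃ b ∈ B, s * b ∈ U := by
  induction hT with
  | bot =>
    intro s hs
    rw [preL_bot hB] at hs
    exact ⟨s⁻¹, B.inv_mem hs, by rw [mul_inv_cancel]; exact U.one_mem⟩
  | step N N' m p hm hN hp hK h ih =>
    intro s hs
    have hp' := hp.pre (B := B)
    obtain ⟨δ, hδ, hδ2⟩ := hp'.exists_near (preL_closed hL hN) (hU.mem_nhds U.one_mem)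
    obtain ⟨n, hn⟩ := exists_nat_gt (‖extL L B p s‖ / δ)
    have hn0 : (0 : ℝ) < n := lt_of_le_of_lt (by positivity) hn
    obtain ⟨t, htN, htU, htp⟩ := hδ2 ((n : ℝ)⁻¹ • extL L B p s) (by
      rw [norm_smul, norm_inv, Real.norm_of_nonneg hn0.le, inv_mul_lt_iff₀ hn0]
      rwa [div_lt_iff₀ hδ] at hn)
    have htn : extL L B p (t ^ n) = extL L B p s := by
      rw [hp'.p_pow htN, htp, smul_smul, mul_inv_cancel₀ hn0.ne', one_smul]
    have htnN := (preL L B N).pow_mem htN n
    have h1 : (t ^ n)⁻¹ * s ∈ preL L B N' := by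
      have h2 := (preL L B N).mul_mem ((preL L B N).inv_mem htnN) hs
      refine (hp'.ker _ h2).1 ?_
      rw [hp'.p_inv_mul htnN hs, htn, sub_self]
    obtain ⟨b, hb, hbU⟩ := ih _ h1
    refine ⟨b, hb, ?_⟩
    have h3 := U.mul_mem (U.pow_mem htU n) hbU
    have e : t ^ n * ((t ^ n)⁻¹ * s * b) = s * b := by group
    rwa [e] at h3

/-- an open subgroup `U ≤ L` with `L = U B` has finite index -/
theorem relIndex_open_ne_zero (hBc : IsCompact (B : Set G)) (U : Subgroup G)
    (hU : IsOpen (U : Set G)) (h : ∀ s ∈ L, ∃ b ∈ B, s * b ∈ U) (hB : B ≤ L) :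
    U.relIndex L ≠ 0 := by
  have hfin : (U.subgroupOf B).FiniteIndex := by
    have : CompactSpace B := isCompact_iff_compactSpace.1 hBc
    have ho : IsOpen ((U.subgroupOf B : Subgroup B) : Set B) :=
      hU.preimage continuous_subtype_val
    have := (U.subgroupOf B).quotient_finite_of_isOpen ho
    exact Subgroup.finiteIndex_of_finite_quotient
  have h1 : U.relIndex B ≠ 0 := hfin.index_ne_zero
  -- the cosets of `U` in `L` are the classes of elements of `B`
  have hf : Finite (L ⧸ U.subgroupOf L) := by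
    have hfB : Finite (B ⧸ U.subgroupOf B) := (U.subgroupOf B).finite_quotient_of_finiteIndex
    refine Finite.of_surjective (f := fun q : B ⧸ U.subgroupOf B =>
      Quotient.liftOn' q (fun b : B => (QuotientGroup.mk (⟨b⁻¹, L.inv_mem (hB b.2)⟩ : L)⁻¹ :
        L ⧸ U.subgroupOf L)) ?_) ?_
    · intro a b hab
      rw [QuotientGroup.leftRel_apply, Subgroup.mem_subgroupOf] at hab
      refine QuotientGroup.eq.2 ?_
      rw [Subgroup.mem_subgroupOf]
      simpa using hab
    · intro q
      obtain ⟨s, rfl⟩ := QuotientGroup.mk_surjective q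
      -- `s = b u`, from `s⁻¹ b' ∈ U`
      obtain ⟨b, hb, hbU⟩ := h (s : G)⁻¹ (L.inv_mem s.2)
      refine ⟨QuotientGroup.mk ⟨b, hb⟩, ?_⟩
      change (QuotientGroup.mk (⟨(b : G)⁻¹, L.inv_mem (hB hb)⟩ : L)⁻¹ : L ⧸ U.subgroupOf L) = _
      refine QuotientGroup.eq.2 ?_
      rw [Subgroup.mem_subgroupOf]
      have h2 := U.inv_mem hbU
      simpa using h2
  exact Nat.card_ne_zero.2 ⟨inferInstance, hf⟩

/-- the normal core of a closed subgroup of finite index -/
theorem exists_core (U : Subgroup G) (hUL : U ≤ L) (hU : IsClosed (U : Set G))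
    (hf : U.relIndex L ≠ 0) : ∃ M : Subgroup G, FiNor M L ∧ M ≤ U := by
  have hmem : ∀ g : G, g ∈ ((U.subgroupOf L).normalCore).map L.subtype ↔
      ∀ l ∈ L, l * g * l⁻¹ ∈ U := by
    intro g
    constructor
    · rintro ⟨x, hx, rfl⟩ l hl
      exact hx ⟨l, hl⟩
    · intro h
      have h1 : g ∈ U := by
        have := h 1 L.one_mem
        simpa using this
      exact ⟨⟨g, hUL h1⟩, fun l => h l l.2, rfl⟩
  refine ⟨((U.subgroupOf L).normalCore).map L.subtype, ⟨?_, ?_, ?_, ?_⟩, ?_⟩
  · rintro _ ⟨x, _, rfl⟩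
    exact x.2
  · have e : ((((U.subgroupOf L).normalCore).map L.subtype : Subgroup G) : Set G)
        = ⋂ l ∈ L, (fun g => l * g * l⁻¹) ⁻¹' (U : Set G) := by
      ext g
      rw [SetLike.mem_coe, hmem]
      simp
    rw [e]
    refine isClosed_biInter fun l _ => hU.preimage ?_
    fun_prop
  · have e : (((U.subgroupOf L).normalCore).map L.subtype).subgroupOf L
        = (U.subgroupOf L).normalCore :=
      Subgroup.comap_map_eq_self_of_injective L.subtype_injective _
    have : (U.subgroupOf L).FiniteIndex := ⟨hf⟩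
    have h1 : ((U.subgroupOf L).normalCore).FiniteIndex := inferInstance
    unfold Subgroup.relIndex
    rw [e]
    exact h1.index_ne_zero
  · rintro n hn s ⟨x, hx, rfl⟩
    refine ⟨⟨n, hn⟩ * x * ⟨n, hn⟩⁻¹, ?_, rfl⟩
    exact (Subgroup.normalCore_normal _).conj_mem x hx _
  · rintro _ ⟨x, hx, rfl⟩
    have := Subgroup.normalCore_le _ hx
    rwa [Subgroup.mem_subgroupOf] at this

/-- `L` is commensurated if every open subgroup meets all cosets of `B` in `L` -/
theorem exists_cms_of (hBc : IsCompact (B : Set G)) (hB : B ≤ L) (hL : IsOpen (L : Set G))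
    (hmeet : ∀ U : Subgroup G, IsOpen (U : Set G) → ∀ s ∈ L, ∃ b ∈ B, s * b ∈ U) (g : G) :
    ∃ M : Subgroup G, Cms L M g := by
  have hLc : IsClosed (L : Set G) := L.isClosed_of_isOpen hL
  -- `U = L ∩ g L g⁻¹ ∩ g⁻¹ L g`
  obtain ⟨U, hU⟩ : ∃ U : Subgroup G, U = L ⊓ (L.comap (MulAut.conj g⁻¹).toMonoidHom
      ⊓ L.comap (MulAut.conj g).toMonoidHom) := ⟨_, rfl⟩
  have hmem : ∀ s, s ∈ U ↔ s ∈ L ∧ g⁻¹ * s * g ∈ L ∧ g * s * g⁻¹ ∈ L := by
    intro s
    rw [hU, Subgroup.mem_inf, Subgroup.mem_inf, Subgroup.mem_comap, Subgroup.mem_comap]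
    simp [MulAut.conj_apply]
  have hUo : IsOpen (U : Set G) := by
    have e : (U : Set G) = (L : Set G) ∩ ((fun s => g⁻¹ * s * g) ⁻¹' (L : Set G)
        ∩ (fun s => g * s * g⁻¹) ⁻¹' (L : Set G)) := by
      ext s
      rw [SetLike.mem_coe, hmem]
      rfl
    rw [e]
    refine hL.inter ((hL.preimage ?_).inter (hL.preimage ?_)) <;> fun_prop
  have hUL : U ≤ L := fun s hs => ((hmem s).1 hs).1
  obtain ⟨M, hM, hMU⟩ := exists_core U hUL (U.isClosed_of_isOpen hUo)
    (relIndex_open_ne_zero hBc U hUo (hmeet U hUo) hB)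
  exact ⟨M, hM, fun s hs => ((hmem s).1 (hMU hs)).2.1, fun s hs => ((hmem s).1 (hMU hs)).2.2⟩

/-- `L` is commensurated -/
theorem exists_cms (hBc : IsCompact (B : Set G)) (hB : B ≤ L) (hL : IsOpen (L : Set G))
    (hT : KTower.{u, v, w} (⊤ : Subgroup (L ⧸ B.subgroupOf L))) (g : G) :
    ∃ M : Subgroup G, Cms L M g := by
  refine exists_cms_of hBc hB hL (fun U hU s hs => ?_) g
  refine hT.open_mul hB (L.isClosed_of_isOpen hL) U hU s ?_
  rw [preL_top]
  exact hs

/-- KEY for closed subgroups of finite index which meet all cosets of `B` -/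
theorem keyAll_of_meet (hBc : IsCompact (B : Set G)) (hB : B ≤ L)
    (hL : IsClosed (L : Set G)) {R : Subgroup (L ⧸ B.subgroupOf L)}
    (hR : IsClosed (R : Set (L ⧸ B.subgroupOf L))) (hK : KeyAll.{u, v, w} R) (M : Subgroup G)
    (hM : FiNor M (preL L B R)) (hmeet : ∀ s ∈ preL L B R, ∃ b ∈ B, s * b ∈ M) :
    KeyAll.{u, v, w} M := by
  have hMc := hM.closed
  have : LocallyCompactSpace M := hMc.isClosedEmbedding_subtypeVal.locallyCompactSpace
  have : SecondCountableTopology M :=
    inferInstanceAs (SecondCountableTopology ((M : Set G) : Set G))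
  have hBcl : IsClosed (B : Set G) := hBc.isClosed
  have hBL : IsClosed ((B.subgroupOf L : Subgroup L) : Set L) :=
    hBcl.preimage continuous_subtype_val
  have : LocallyCompactSpace L := hL.isClosedEmbedding_subtypeVal.locallyCompactSpace
  have : SecondCountableTopology L :=
    inferInstanceAs (SecondCountableTopology ((L : Set G) : Set G))
  have : T3Space (L ⧸ B.subgroupOf L) := inferInstance
  have : SecondCountableTopology (L ⧸ B.subgroupOf L) := inferInstance
  have : LocallyCompactSpace R := hR.isClosedEmbedding_subtypeVal.locallyCompactSpace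
  have : SecondCountableTopology R :=
    inferInstanceAs (SecondCountableTopology ((R : Set (L ⧸ B.subgroupOf L)) : Set _))
  have : SigmaCompactSpace M := sigmaCompactSpace_of_locallyCompact_secondCountable
  have : BaireSpace R := inferInstance
  -- the homomorphism `M → R`
  obtain ⟨φ, hφ⟩ : ∃ φ : M →* R, φ = (toR (B := B) R).comp (Subgroup.inclusion hM.le) := ⟨_, rfl⟩
  have hφc : Continuous φ := by
    rw [hφ]
    exact (toR_continuous R).comp (continuous_inclusion hM.le)
  have hφ1 : ∀ x : M, φ x = 1 ↔ (x : G) ∈ B := by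
    intro x
    rw [hφ]
    exact toR_eq_one R _
  have hφs : Function.Surjective φ := by
    intro q
    obtain ⟨x, rfl⟩ := toR_surjective (B := B) R q
    obtain ⟨b, hb, hbM⟩ := hmeet x x.2
    refine ⟨⟨x * b, hbM⟩, ?_⟩
    rw [hφ]
    have hbR : b ∈ preL L B R := le_preL hB R hb
    have e : (toR (B := B) R).comp (Subgroup.inclusion hM.le) ⟨x * b, hbM⟩
        = toR R (x * ⟨b, hbR⟩) := rfl
    rw [e, map_mul, (toR_eq_one R ⟨b, hbR⟩).2 hb, mul_one]
  have hφo : IsOpenMap φ := φ.isOpenMap_of_sigmaCompact hφs hφc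
  -- the quotient of `M` by `M ∩ B`
  have hker : φ.ker = B.subgroupOf M := by
    ext x
    rw [MonoidHom.mem_ker, hφ1, Subgroup.mem_subgroupOf]
  have hkn : (B.subgroupOf M).Normal := by
    rw [← hker]
    infer_instance
  have hkc : IsCompact ((B.subgroupOf M : Subgroup M) : Set M) :=
    hMc.isClosedEmbedding_subtypeVal.isCompact_preimage hBc
  refine keyAll_of_compact_normal (B.subgroupOf M) hkc ?_
  -- `R ≅ M / (M ∩ B)`
  have hle : B.subgroupOf M ≤ φ.ker := hker.ge
  obtain ⟨ψ, hψ⟩ : ∃ ψ : M ⧸ B.subgroupOf M →* R, ψ = QuotientGroup.lift (B.subgroupOf M) φ hle :=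
    ⟨_, rfl⟩
  have hψm : ∀ x : M, ψ (QuotientGroup.mk x) = φ x := by
    intro x
    rw [hψ]
    rfl
  have hψc : Continuous ψ := by
    refine (QuotientGroup.isQuotientMap_mk (B.subgroupOf M)).continuous_iff.2 ?_
    exact hφc.congr fun x => (hψm x).symm
  have hψi : Function.Injective ψ := by
    rw [injective_iff_map_eq_one]
    intro q hq
    obtain ⟨x, rfl⟩ := QuotientGroup.mk_surjective q
    rw [hψm, hφ1] at hq
    rw [QuotientGroup.eq_one_iff, Subgroup.mem_subgroupOf]
    exact hq
  have hψs : Function.Surjective ψ := by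
    intro q
    obtain ⟨x, rfl⟩ := hφs q
    exact ⟨QuotientGroup.mk x, hψm x⟩
  have hψo : IsOpenMap ψ := by
    intro V hV
    have e : ψ '' V = φ '' ((QuotientGroup.mk : M → M ⧸ B.subgroupOf M) ⁻¹' V) := by
      ext q
      constructor
      · rintro ⟨y, hy, rfl⟩
        obtain ⟨x, rfl⟩ := QuotientGroup.mk_surjective y
        exact ⟨x, hy, (hψm x).symm⟩
      · rintro ⟨x, hx, rfl⟩
        exact ⟨QuotientGroup.mk x, hx, hψm x⟩
    rw [e]
    exact hφo _ (hV.preimage QuotientGroup.continuous_mk)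
  obtain ⟨E, hE⟩ : ∃ E : M ⧸ B.subgroupOf M ≃* R, ∀ x, E x = ψ x :=
    ⟨MulEquiv.ofBijective ψ ⟨hψi, hψs⟩, fun _ => rfl⟩
  have hEc : Continuous E := hψc.congr fun x => (hE x).symm
  have hEo : IsOpenMap E := by
    intro V hV
    have e : E '' V = ψ '' V := Set.image_congr fun x _ => hE x
    rw [e]
    exact hψo V hV
  have hsc : Continuous E.symm := by
    refine continuous_def.2 fun V hV => ?_
    have e : E.symm ⁻¹' V = E '' V := by
      ext q
      constructor
      · intro hq
        exact ⟨E.symm q, hq, E.apply_symm_apply q⟩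
      · rintro ⟨x, hx, rfl⟩
        change E.symm (E x) ∈ V
        rwa [E.symm_apply_apply]
    rw [e]
    exact hEo V hV
  have hcle : IsClosedEmbedding E.symm.toMonoidHom := by
    let e : R ≃ₜ M ⧸ B.subgroupOf M :=
      { toEquiv := E.symm.toEquiv
        continuous_toFun := hsc
        continuous_invFun := hEc }
    exact e.isClosedEmbedding
  have : T2Space (M ⧸ B.subgroupOf M) := by
    have : IsClosed ((B.subgroupOf M : Subgroup M) : Set M) := hkc.isClosed
    infer_instance
  exact KeyAll.congr E.symm.toMonoidHom hcle E.symm.surjective hK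

/-- KEY for closed subgroups of finite index -/
theorem keyAll_finite_index (hBc : IsCompact (B : Set G)) (hB : B ≤ L)
    (hL : IsClosed (L : Set G)) {R : Subgroup (L ⧸ B.subgroupOf L)}
    (hR : IsClosed (R : Set (L ⧸ B.subgroupOf L))) (hT : KTower.{u, v, w} R)
    (hK : KeyAll.{u, v, w} R) (M : Subgroup G) (hM : FiNor M (preL L B R)) :
    KeyAll.{u, v, w} M :=
  keyAll_of_meet hBc hB hL hR hK M hM (hT.fin_mul hB hL M hM)

/-- the pulled back tower -/
theorem glue_tower (hBc : IsCompact (B : Set G)) (hB : B ≤ L)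
    (hL : IsClosed (L : Set G)) {R : Subgroup (L ⧸ B.subgroupOf L)} (hT : KTower.{u, v, w} R) :
    (∀ M : Subgroup G, FiNor M (preL L B R) → NTw.{u, v, w} M) ∧
      CTw.{u, v, w} (preL L B R) := by
  induction hT with
  | bot =>
    rw [preL_bot hB]
    refine ⟨fun M hM => NTw.bot M ?_, CTw.bot B hBc⟩
    exact hBc.of_isClosed_subset hM.closed hM.le
  | step N N' m p hm hN hp hK h ih =>
    have hT' : KTower.{u, v, w} N := KTower.step N N' m p hm hN hp hK h
    have hp' := hp.pre (B := B)
    have hNc := preL_closed (B := B) hL hN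
    have hc' : IsClosed (preL L B N' : Set G) := hp'.isClosed_ker hNc
    have hkey : ∀ M : Subgroup G, FiNor M (preL L B N) → KeyAll.{u, v, w} M :=
      fun M hM => keyAll_finite_index hBc hB hL hN hT' hK M hM
    have hn1 : ∀ M : Subgroup G, FiNor M (preL L B N) → NTw.{u, v, w} M := by
      intro M hM
      refine NTw.step M (M ⊓ preL L B N') inf_le_left ?_ (ih.1 _ (hM.inf hp'.le hc'))
      exact NDescAll.of_layer hM.closed (hM.layer hp') (hkey M hM)
    refine ⟨hn1, CTw.step _ _ hp'.le ?_ ih.2⟩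
    exact CDescAll.of_layer hNc hp' (hkey _ (FiNor.refl_c hNc)) (StarAll.of hkey hn1)

/-- **open subgroups `L` with a compact normal subgroup `B` such that `L / B` has a tower** -/
theorem keyAll_of_open_compact (hL : IsOpen (L : Set G)) (hBc : IsCompact (B : Set G))
    (hB : B ≤ L) (hne : B ≠ L)
    (hT : KTower.{u, v, w} (⊤ : Subgroup (L ⧸ B.subgroupOf L))) : KeyAll.{u, v, w} G := by
  have hLc : IsClosed (L : Set G) := L.isClosed_of_isOpen hL
  have hBL : IsClosed ((B.subgroupOf L : Subgroup L) : Set L) :=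
    hBc.isClosed.preimage continuous_subtype_val
  have : LocallyCompactSpace L := hLc.isClosedEmbedding_subtypeVal.locallyCompactSpace
  have : SecondCountableTopology L :=
    inferInstanceAs (SecondCountableTopology ((L : Set G) : Set G))
  have : T3Space (L ⧸ B.subgroupOf L) := inferInstance
  have : SecondCountableTopology (L ⧸ B.subgroupOf L) := inferInstance
  obtain ⟨h1, h2⟩ := glue_tower hBc hB hLc hT
  rw [preL_top] at h1 h2
  -- the top layer
  have hntop : (⊤ : Subgroup (L ⧸ B.subgroupOf L)) ≠ ⊥ := by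
    intro h
    have h3 := congrArg (preL L B) h
    rw [preL_top, preL_bot hB] at h3
    exact hne h3.symm
  have hTc : IsClosed ((⊤ : Subgroup (L ⧸ B.subgroupOf L)) : Set (L ⧸ B.subgroupOf L)) := by
    rw [Subgroup.coe_top]
    exact isClosed_univ
  have hK : KeyAll.{u, v, w} (⊤ : Subgroup (L ⧸ B.subgroupOf L)) := hT.keyAll hntop
  have hkey : ∀ M : Subgroup G, FiNor M L → KeyAll.{u, v, w} M := by
    intro M hM
    refine keyAll_finite_index hBc hB hLc hTc hT hK M ?_
    rw [preL_top]
    exact hM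
  exact keyAll_of_commensurated L hL (hkey L (FiNor.refl_c hLc)) (StarAll.of hkey h1) h2
    (exists_cms hBc hB hL hT)

end top

end Pool.Agent.AbCoc
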