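import Pool.Agent.Lib_MP_418a80_on.On2f
import Pool.Agent.Lib_MP_418a80_hyp.HZ

/-!
# MP_418a80_an, open subgroups which need not be normal: Reiter's condition on the coset space,
combinations over cosets, mixing families

The versions of `on/On2c`, `on/On2f`, `on/On2d` for an open subgroup `H` of `G`.
-/

set_option autoImplicit false
set_option linter.unusedVariables false
set_option linter.unusedSectionVars false

open MeasureTheory Topology Filter
open scoped ENNReal NNReal ComplexConjugate Pointwise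

namespace Pool.Agent.AbCoc

universe u v w z

section reiter
variable {G : Type w} [Group G] [TopologicalSpace G] [IsTopologicalGroup G]
  [SecondCountableTopology G] [LocallyCompactSpace G] [MeasurableSpace G] [BorelSpace G]
  (μ : Measure G) [μ.IsHaarMeasure]

/-- **Reiter's condition on the coset space of an open subgroup** -/
theorem exists_reiter_coset_c (H : Subgroup G) (hHo : IsOpen (H : Set G))
    (hR : Reiter μ) (D : Set G) (hD : IsCompact D) (κ : ℝ) (hκ : 0 < κ) :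
    ∃ (R : Finset (G ⧸ H)) (F : G ⧸ H → ℝ), (∀ q, 0 ≤ F q) ∧ (∀ q ∉ R, F q = 0) ∧
      (∀ s ∈ D, ∀ q ∉ R, F (s⁻¹ • q) = 0) ∧ ∑ q ∈ R, F q = 1 ∧
      ∀ s ∈ D, ∑ q ∈ R, |F (s⁻¹ • q) - F q| ≤ κ := by
  classical
  obtain ⟨f, hfc, hfs, hf0, hf1, hfD⟩ := hR D hD κ hκ
  have hdisc : DiscreteTopology (G ⧸ H) := QuotientGroup.discreteTopology hHo
  have hmk : Continuous (QuotientGroup.mk : G → G ⧸ H) := QuotientGroup.continuous_mk
  have hmeas : ∀ q : G ⧸ H, MeasurableSet ((QuotientGroup.mk : G → G ⧸ H) ⁻¹' {q}) := fun q =>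
    ((isOpen_discrete {q}).preimage hmk).measurableSet
  have hfi : Integrable f μ := hfc.integrable_of_hasCompactSupport hfs
  obtain ⟨F, hF⟩ : ∃ F : G ⧸ H → ℝ, ∀ q, F q = ∫ t in (QuotientGroup.mk : G → G ⧸ H) ⁻¹' {q}, f t ∂μ :=
    ⟨_, fun _ => rfl⟩
  -- the finite set
  have hK1 : ((QuotientGroup.mk : G → G ⧸ H) '' tsupport f).Finite := (hfs.isCompact.image hmk).finite_of_discrete
  have hK2 : ((QuotientGroup.mk : G → G ⧸ H) '' (D * tsupport f)).Finite :=
    ((hD.mul hfs.isCompact).image hmk).finite_of_discrete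
  obtain ⟨R, hRdef⟩ : ∃ R : Finset (G ⧸ H), R = hK1.toFinset ∪ hK2.toFinset := ⟨_, rfl⟩
  have hR1 : ∀ t ∈ tsupport f, (t : G ⧸ H) ∈ R := fun t ht => by
    rw [hRdef, Finset.mem_union]
    exact Or.inl (hK1.mem_toFinset.2 ⟨t, ht, rfl⟩)
  have hR2 : ∀ s ∈ D, ∀ t ∈ tsupport f, ((s * t : G) : G ⧸ H) ∈ R := fun s hs t ht => by
    rw [hRdef, Finset.mem_union]
    exact Or.inr (hK2.mem_toFinset.2 ⟨s * t, Set.mul_mem_mul hs ht, rfl⟩)
  have hFz : ∀ q : G ⧸ H, (∀ t ∈ tsupport f, (t : G ⧸ H) ≠ q) → F q = 0 := by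
    intro q hq
    rw [hF]
    refine setIntegral_eq_zero_of_forall_eq_zero fun t ht => ?_
    by_contra h0
    exact hq t (subset_tsupport f h0) ht
  have hdisj : ∀ (R : Finset (G ⧸ H)), Set.PairwiseDisjoint (R : Set (G ⧸ H))
      (fun q => (QuotientGroup.mk : G → G ⧸ H) ⁻¹' {q}) := by
    intro R q _ q' _ hqq
    refine Set.disjoint_left.2 fun t ht ht' => hqq ?_
    rw [← (show (t : G ⧸ H) = q from ht), ← (show (t : G ⧸ H) = q' from ht')]
  have hsm : ∀ s t : G, s • (t : G ⧸ H) = ((s * t : G) : G ⧸ H) := fun s t => rfl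
  -- translation
  have htr : ∀ (s : G) (q : G ⧸ H), F (s⁻¹ • q)
      = ∫ t in (QuotientGroup.mk : G → G ⧸ H) ⁻¹' {q}, f (s⁻¹ * t) ∂μ := by
    intro s q
    rw [hF, ← integral_indicator (hmeas _), ← integral_indicator (hmeas _),
      ← integral_mul_left_eq_self _ s⁻¹]
    congr 1
    funext t
    by_cases ht : (t : G ⧸ H) = q
    · rw [Set.indicator_of_mem (show t ∈ _ from ht), Set.indicator_of_mem]
      change ((s⁻¹ * t : G) : G ⧸ H) = _
      rw [← hsm, ht]
    · rw [Set.indicator_of_notMem (show t ∉ _ from ht), Set.indicator_of_notMem]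
      intro h1
      apply ht
      have h2 : ((s⁻¹ * t : G) : G ⧸ H) = s⁻¹ • q := h1
      rw [← hsm] at h2
      exact MulAction.injective _ h2
  refine ⟨R, F, fun q => ?_, fun q hq => ?_, fun s hs q hq => ?_, ?_, fun s hs => ?_⟩
  · rw [hF]
    exact setIntegral_nonneg (hmeas q) fun t _ => hf0 t
  · refine hFz q fun t ht h => hq ?_
    rw [← h]
    exact hR1 t ht
  · refine hFz _ fun t ht h => hq ?_
    have h1 : q = ((s * t : G) : G ⧸ H) := by
      rw [← hsm, h, smul_inv_smul]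
    rw [h1]
    exact hR2 s hs t ht
  · rw [Finset.sum_congr rfl fun q _ => hF q, ← integral_biUnion_finset R (fun q _ => hmeas q)
      (hdisj R) (fun q _ => hfi.integrableOn), ← hf1]
    refine setIntegral_eq_integral_of_forall_compl_eq_zero fun t ht => ?_
    by_contra h0
    exact ht (Set.mem_biUnion (hR1 t (subset_tsupport f h0)) rfl)
  · have hgi : Integrable (fun t => f (s⁻¹ * t)) μ := hfi.comp_mul_left s⁻¹
    have hdi : Integrable (fun t => |f (s⁻¹ * t) - f t|) μ := (hgi.sub hfi).abs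
    have h1 : ∀ q ∈ R, |F (s⁻¹ • q) - F q|
        ≤ ∫ t in (QuotientGroup.mk : G → G ⧸ H) ⁻¹' {q}, |f (s⁻¹ * t) - f t| ∂μ := by
      intro q _
      rw [htr, hF, ← integral_sub hgi.integrableOn hfi.integrableOn]
      exact abs_integral_le_integral_abs
    refine (Finset.sum_le_sum h1).trans ?_
    rw [← integral_biUnion_finset R (fun q _ => hmeas q) (hdisj R) (fun q _ => hdi.integrableOn)]
    refine (setIntegral_le_integral hdi (Eventually.of_forall fun t => abs_nonneg _)).trans ?_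
    exact hfD s hs

end reiter

section cosum
variable {A : Type u} [CStarAlgebra A] {K : Type v} [NormedAddCommGroup K]
  [InnerProductSpace ℂ K] [CompleteSpace K]
variable {G : Type w} [Group G] [TopologicalSpace G] {T : TrAlg A K} (S : TrAct G T)
variable {H : Subgroup G} (R : Finset (G ⧸ H))

/-- translation of a combination over cosets -/
theorem TrAct.α_cosum' (g : G) (c : G ⧸ H → ℝ) (x : A) (h0 : ∀ q ∉ R, c q = 0)
    (h1 : ∀ q ∉ R, c (g⁻¹ • q) = 0) :
    S.α g (S.cosum R c x) - S.cosum R c x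
      = (∑ q ∈ R, (c (g⁻¹ • q) : ℂ) •
          (S.α (g * (g⁻¹ • q).out) x - S.α q.out x))
        + S.cosum R (fun q => c (g⁻¹ • q) - c q) x := by
  classical
  obtain ⟨f, hf⟩ : ∃ f : G ⧸ H → A, ∀ q, f q = (c q : ℂ) • S.α (g * q.out) x := ⟨_, fun _ => rfl⟩
  have e1 : S.α g (S.cosum R c x) = ∑ q ∈ R, f q := by
    unfold TrAct.cosum
    rw [map_sum]
    refine Finset.sum_congr rfl fun q _ => ?_
    rw [map_smul, hf, S.mul]
  have hf0 : ∀ q ∉ R, f q = 0 := fun q hq => by rw [hf, h0 q hq, Complex.ofReal_zero, zero_smul]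
  have e2 : ∑ q ∈ R, f q = ∑ q ∈ R, f (g⁻¹ • q) := by
    have e3 : ∑ q ∈ R, f (g⁻¹ • q) = ∑ q ∈ R.image (fun q => g⁻¹ • q), f q := by
      rw [Finset.sum_image]
      intro q _ q' _ h
      exact MulAction.injective _ h
    rw [e3]
    have e4 : ∑ q ∈ R, f q = ∑ q ∈ R ∪ R.image (fun q => g⁻¹ • q), f q :=
      Finset.sum_subset Finset.subset_union_left fun q _ hq => hf0 q hq
    have e5 : ∑ q ∈ R.image (fun q => g⁻¹ • q), f q
        = ∑ q ∈ R ∪ R.image (fun q => g⁻¹ • q), f q :=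
      Finset.sum_subset Finset.subset_union_right fun q _ hq => by
        have h2 : g • q ∉ R := fun h => hq (Finset.mem_image.2
          ⟨_, h, inv_smul_smul _ _⟩)
        have h3 := h1 _ h2
        rw [inv_smul_smul] at h3
        rw [hf, h3, Complex.ofReal_zero, zero_smul]
    rw [e4, e5]
  rw [e1, e2]
  unfold TrAct.cosum
  rw [← Finset.sum_add_distrib, ← Finset.sum_sub_distrib]
  refine Finset.sum_congr rfl fun q _ => ?_
  rw [hf, Complex.ofReal_sub, sub_smul, smul_sub]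
  abel

/-- near-invariance of a combination over cosets, first part -/
theorem TrAct.on_shift_le' (g : G) (c : G ⧸ H → ℝ) (x : A) (h0 : ∀ q ∉ R, c q = 0)
    (hc0 : ∀ q, 0 ≤ c q) (hc1 : ∀ q, c q ≤ 1) {δ : ℝ} (hδ0 : 0 ≤ δ)
    (hδ : ∀ n ∈ H, (∃ q ∈ R, ∃ q' ∈ R, n = q.out⁻¹ * (g * q'.out)) →
      ‖T.ι (S.α n x - x)‖ ≤ δ) :
    ‖T.ι (∑ q ∈ R, (c (g⁻¹ • q) : ℂ) •
          (S.α (g * (g⁻¹ • q).out) x - S.α q.out x))‖ ≤ R.card * δ := by
  rw [map_sum]
  have h : ∀ q ∈ R, ‖T.ι ((c (g⁻¹ • q) : ℂ) •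
      (S.α (g * (g⁻¹ • q).out) x - S.α q.out x))‖ ≤ δ := by
    intro q hq
    rw [map_smul, norm_smul, Complex.norm_real, Real.norm_eq_abs, abs_of_nonneg (hc0 _)]
    by_cases hq' : g⁻¹ • q ∈ R
    · have h2 : q.out⁻¹ * (g * (g⁻¹ • q).out) ∈ H := by
        rw [← QuotientGroup.eq, QuotientGroup.out_eq']
        have h5 : ((g * (g⁻¹ • q).out : G) : G ⧸ H) = g • (((g⁻¹ • q).out : G) : G ⧸ H) := rfl
        rw [h5, QuotientGroup.out_eq', smul_inv_smul]
      have h3 := hδ _ h2 ⟨q, hq, _, hq', rfl⟩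
      have h4 : S.α (g * (g⁻¹ • q).out) x - S.α q.out x
          = S.α q.out (S.α (q.out⁻¹ * (g * (g⁻¹ • q).out)) x - x) := by
        rw [map_sub, ← S.mul, mul_inv_cancel_left]
      rw [h4, S.norm_map]
      calc c (g⁻¹ • q) * ‖T.ι (S.α (q.out⁻¹ * (g * (g⁻¹ • q).out)) x - x)‖
          ≤ 1 * δ := mul_le_mul (hc1 _) h3 (norm_nonneg _) zero_le_one
        _ = δ := one_mul _
    · rw [h0 _ hq', zero_mul]
      exact hδ0
  refine (norm_sum_le_of_le _ h).trans (le_of_eq ?_)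
  rw [Finset.sum_const, nsmul_eq_mul]

end cosum

section fam
variable {A : Type u} [CStarAlgebra A] {K : Type v} [NormedAddCommGroup K]
  [InnerProductSpace ℂ K] [CompleteSpace K]
variable {G : Type w} [Group G] [TopologicalSpace G] {T : TrAlg A K} (S : TrAct G T)

/-- limits of mixtures are fixed by the elements of `H` which `k` conjugates into `H` -/
theorem TrAct.mix_fixed [IsTopologicalGroup G] (H : Subgroup G) (k h : G) (hh : h ∈ H)
    (hkh : k⁻¹ * h * k ∈ H) (a y : A) (ha : S.α h a = a)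
    (happ : ∀ D : Set G, IsCompact D → D ⊆ (H : Set G) → ∀ κ : ℝ, 0 < κ → ∀ ε : ℝ, 0 < ε →
        ∃ (I : Type) (_ : Fintype I) (u : I → A) (l : I → ℝ), (∀ i, S.IsNU D κ (u i)) ∧
          (∀ i, 0 ≤ l i) ∧ ∑ i, l i = 1 ∧
          ‖T.ι (∑ i, (l i : ℂ) • (u i * a * S.α k (star (u i))) - y)‖ ≤ ε) :
    S.α h y = y := by
  have key : ∀ ε : ℝ, 0 < ε → ‖T.ι (S.α h y - y)‖ ≤ 2 * ε + 2 * ε * ‖a‖ := by
    intro ε hε
    obtain ⟨I, _, u, l, hu, h0, h1, h2⟩ := happ {h, k⁻¹ * h * k} (Set.Finite.isCompact (by simp))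
      (by
        rintro _ (rfl | rfl)
        · exact hh
        · exact hkh) ε hε ε hε
    obtain ⟨b, hb⟩ : ∃ b : A, b = ∑ i, (l i : ℂ) • (u i * a * S.α k (star (u i))) :=
      ⟨_, rfl⟩
    rw [← hb] at h2
    have h3 : ‖T.ι (S.α h b - b)‖ ≤ 2 * ε * ‖a‖ := by
      have e : S.α h b - b
          = ∑ i, (l i : ℂ) • (S.α h (u i * a * S.α k (star (u i)))
            - u i * a * S.α k (star (u i))) := by
        rw [hb, map_sum, ← Finset.sum_sub_distrib]
        refine Finset.sum_congr rfl fun i _ => ?_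
        rw [map_smul, smul_sub]
      rw [e, map_sum]
      simp only [map_smul]
      exact norm_conv_le l h0 h1 _ _ fun i =>
        (hu i).near_hull k h a ha (by simp) (by simp)
    have e2 : S.α h y - y = S.α h (y - b) + (S.α h b - b) + (b - y) := by
      rw [map_sub]; abel
    rw [e2, map_add, map_add]
    have h4 : ‖T.ι (S.α h (y - b))‖ ≤ ε := by
      rw [S.norm_map, map_sub, norm_sub_rev, ← map_sub]
      exact h2
    calc _ ≤ ‖T.ι (S.α h (y - b))‖ + ‖T.ι (S.α h b - b)‖ + ‖T.ι (b - y)‖ :=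
          norm_add₃_le
      _ ≤ ε + 2 * ε * ‖a‖ + ε := by gcongr
      _ = 2 * ε + 2 * ε * ‖a‖ := by ring
  have h0 : ‖T.ι (S.α h y - y)‖ ≤ 0 := by
    refine le_of_forall_pos_le_add fun ε hε => ?_
    have hp : 0 < 2 + 2 * ‖a‖ := by positivity
    have := key (ε / (2 + 2 * ‖a‖)) (by positivity)
    have e : 2 * (ε / (2 + 2 * ‖a‖)) + 2 * (ε / (2 + 2 * ‖a‖)) * ‖a‖ = ε := by
      field_simp
    rw [e] at this
    linarith
  have h1 : T.ι (S.α h y - y) = T.ι 0 := by
    rw [map_zero]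
    exact norm_le_zero_iff.1 h0
  exact sub_eq_zero.1 (T.inj h1)

/-- **mixing families**, version for subgroups which need not be normal: if there are no asymptotic
intertwiners on `F`, then there are weighted families of late near-invariant unitaries with
`∑ l u r α_k(u)* ≈ 0` for `k ∈ F` and `∑ l u r u* ≈ τ(r)` -/
theorem TrAct.exists_fam' [IsTopologicalGroup G] (H : Subgroup G)
    (hkey : (S.cm H.subtype continuous_subtype_val).Key) (F : Finset G)
    (hno : ∀ k ∈ F, ∀ z, (∀ h ∈ H, k⁻¹ * h * k ∈ H → S.α h z = z) →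
      S.Intw (H : Set G) k z → z = 0)
    (r : A) (hr : ∀ h ∈ H, S.α h r = r) (D : Set G) (hD : IsCompact D) (hDH : D ⊆ H)
    (κ ε : ℝ) (hκ : 0 < κ) (hε : 0 < ε) :
    ∃ (I : Type) (_ : Fintype I) (u : I → A) (l : I → ℝ), (∀ i, S.IsNU D κ (u i)) ∧
      (∀ i, 0 ≤ l i) ∧ ∑ i, l i = 1 ∧
      (∀ k ∈ F, ‖T.ι (∑ i, (l i : ℂ) • (u i * r * S.α k (star (u i))))‖ ≤ ε) ∧
      ‖T.ι (∑ i, (l i : ℂ) • (u i * r * star (u i)) - T.τ r • (1 : A))‖ ≤ ε := by
  classical
  obtain ⟨m, ⟨e⟩⟩ : ∃ m : ℕ, Nonempty (F ≃ Fin m) := ⟨_, ⟨F.equivFin⟩⟩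
  obtain ⟨z, _, _, h3, h4⟩ := S.on_center' H (F := Option (Fin m))
    (fun o => match o with
      | none => r - T.τ r • (1 : A)
      | some _ => r)
    (fun o => match o with
      | none => 1
      | some j => ((e.symm j : F) : G))
  have hz : ∀ j, z (some j) = 0 := by
    intro j
    refine hno _ (e.symm j).2 _ (fun h hh hkh => ?_) fun ε1 hε1 => ?_
    · refine S.mix_fixed H ((e.symm j : F) : G) h hh hkh r (z (some j)) (hr h hh) ?_
      intro D1 hD1 hD1H κ1 hκ1 ε1 hε1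
      obtain ⟨I, hI, u, l, h5, h6, h7, h8⟩ := h3 D1 hD1 hD1H κ1 hκ1 ε1 hε1
      exact ⟨I, hI, u, l, h5, h6, h7, h8 (some j)⟩
    obtain ⟨D1, κ1, hD1, hD1N, hκ1, h5⟩ := h4 ε1 hε1
    refine ⟨D1, κ1, hD1, hD1N, hκ1, fun q hq => ?_⟩
    have h6 := h5 q hq (some j)
    have hq1 : S.α ((e.symm j : F) : G) (star q) * S.α ((e.symm j : F) : G) q = 1 := by
      rw [← map_mul, hq.uni, map_one]
    have hq2 : S.α ((e.symm j : F) : G) q * star (S.α ((e.symm j : F) : G) q) = 1 := by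
      rw [← map_star, ← map_mul, hq.uni', map_one]
    have e1 : q * z (some j) - z (some j) * S.α ((e.symm j : F) : G) q
        = (q * z (some j) * S.α ((e.symm j : F) : G) (star q) - z (some j))
          * S.α ((e.symm j : F) : G) q := by
      rw [sub_mul, mul_assoc (q * z (some j)), hq1, mul_one]
    rw [e1, T.norm_mul_unitary _ hq2]
    exact h6
  have hz0 : z none = 0 := by
    have hAsC : S.AsC (H : Set G) (z none) := by
      intro ε1 hε1
      obtain ⟨D1, κ1, hD1, hD1N, hκ1, h5⟩ := h4 ε1 hε1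
      refine ⟨D1, κ1, hD1, hD1N, hκ1, fun q hq => ?_⟩
      have h6 := h5 q hq none
      have e1 : S.α (1 : G) (star q) = star q := S.one _
      change ‖T.ι (q * z none * S.α (1 : G) (star q) - z none)‖ ≤ ε1 at h6
      rw [e1] at h6
      exact h6
    have hfix : ∀ h ∈ H, S.α h (z none) = z none := by
      intro h hh
      refine S.mix_fixed H 1 h hh (by rwa [inv_one, one_mul, mul_one]) (r - T.τ r • (1 : A))
        (z none) ?_ ?_
      · rw [map_sub, hr h hh, map_smul, map_one]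
      · intro D1 hD1 hD1H κ1 hκ1 ε1 hε1
        obtain ⟨I, hI, u, l, h5, h6, h7, h8⟩ := h3 D1 hD1 hD1H κ1 hκ1 ε1 hε1
        exact ⟨I, hI, u, l, h5, h6, h7, h8 none⟩
    have hsc := TrAct.AsC.scalar S H hkey hAsC hfix
    have hτ : T.τ (z none) = 0 := by
      have hle : ‖T.τ (z none)‖ ≤ 0 := by
        refine le_of_forall_pos_le_add fun ε1 hε1 => ?_
        obtain ⟨I, hI, u, l, h5, h6, h7, h8⟩ := h3 D hD hDH κ hκ ε1 hε1
        have h9 := h8 none
        change ‖T.ι (∑ i, (l i : ℂ) • (u i * (r - T.τ r • (1 : A)) * S.α (1 : G) (star (u i)))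
          - z none)‖ ≤ ε1 at h9
        have h10 : T.τ (∑ i, (l i : ℂ) • (u i * (r - T.τ r • (1 : A)) * S.α (1 : G) (star (u i))))
            = 0 := by
          rw [T.on_τ_sum]
          refine Finset.sum_eq_zero fun i _ => ?_
          rw [T.τ_smul, S.one, T.τ_mul_comm, ← mul_assoc, (h5 i).uni, one_mul, T.τ_sub, T.τ_smul,
            T.τ_one, mul_one, sub_self, mul_zero]
        have h11 : ‖T.τ (∑ i, (l i : ℂ) • (u i * (r - T.τ r • (1 : A)) * S.α (1 : G) (star (u i)))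
            - z none)‖ ≤ ε1 := by
          have h12 := T.on_τ_mul_le 1 (∑ i, (l i : ℂ) • (u i * (r - T.τ r • (1 : A)) *
            S.α (1 : G) (star (u i))) - z none)
          rw [one_mul, T.norm_one, one_mul] at h12
          exact h12.trans h9
        rw [T.τ_sub, h10, zero_sub, norm_neg] at h11
        linarith
      exact norm_le_zero_iff.1 hle
    rw [hsc, hτ, zero_smul]
  obtain ⟨I, hI, u, l, h5, h6, h7, h8⟩ := h3 D hD hDH κ hκ ε hε
  refine ⟨I, hI, u, l, h5, h6, h7, fun k hk => ?_, ?_⟩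
  · have h9 := h8 (some (e ⟨k, hk⟩))
    change ‖T.ι (∑ i, (l i : ℂ) • (u i * r * S.α ((e.symm (e ⟨k, hk⟩) : F) : G) (star (u i)))
      - z (some (e ⟨k, hk⟩)))‖ ≤ ε at h9
    rw [hz, sub_zero, Equiv.symm_apply_apply] at h9
    exact h9
  · have h9 := h8 none
    change ‖T.ι (∑ i, (l i : ℂ) • (u i * (r - T.τ r • (1 : A)) * S.α (1 : G) (star (u i)))
      - z none)‖ ≤ ε at h9
    rw [hz0, sub_zero] at h9
    have e1 : ∑ i, (l i : ℂ) • (u i * (r - T.τ r • (1 : A)) * S.α (1 : G) (star (u i)))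
        = ∑ i, (l i : ℂ) • (u i * r * star (u i)) - T.τ r • (1 : A) := by
      have e2 : ∀ i, (l i : ℂ) • (u i * (r - T.τ r • (1 : A)) * S.α (1 : G) (star (u i)))
          = (l i : ℂ) • (u i * r * star (u i)) - (l i : ℂ) • (T.τ r • (1 : A)) := by
        intro i
        rw [S.one, mul_sub, sub_mul, mul_smul_comm, mul_one, smul_mul_assoc, (h5 i).uni', smul_sub]
      rw [Finset.sum_congr rfl fun i _ => e2 i, Finset.sum_sub_distrib, ← Finset.sum_smul]
      congr 1
      have e3 : ∑ i, (l i : ℂ) = 1 := by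
        rw [← Complex.ofReal_sum, h7, Complex.ofReal_one]
      rw [e3, one_smul]
    rw [e1] at h9
    exact h9

end fam

end Pool.Agent.AbCoc
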