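import Pool.Agent.Lib_MP_418a80_con.CFi

/-!
# [CON] Star: `StarP N` from KEY and towers of the subgroups of finite index

`d` is fixed by `M`, of finite index in `N`, and commutes with late near-`N`-invariant unitaries, hence
contractions (Cayley transform). Hull over near-`M`-invariant unitaries `U_j`: there are no
intertwiners for `f ∈ N \ M`, so `∑ λ_j α_f(U_j) U_j* ≈ 0 ≈ ∑ λ_j α_f(U_j) d U_j*`, and
`∑ λ_j U_j d U_j* ≈ τ(d)`. `X_j = ∑_(f ∈ N / M) α_f(U_j)` is near-`N`-invariant, so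
`0 ≈ ∑ λ_j [d, X_j] U_j* ≈ d - τ(d)`.
-/

set_option autoImplicit false
set_option linter.unusedVariables false
set_option linter.unusedSectionVars false

open Topology Filter MeasureTheory
open scoped RealInnerProductSpace ComplexConjugate

namespace Pool.Agent.AbCoc

universe u v w z

section
variable {G : Type w} [Group G] [TopologicalSpace G] {M N : Subgroup G}

/-- representatives of the cosets -/
theorem FiNor.exists_reps (h : FiNor M N) : ∃ (n : ℕ) (r : Fin n → G), (∀ i, r i ∈ N) ∧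
    (∀ i j, (r i)⁻¹ * r j ∈ M → i = j) ∧ ∀ s ∈ N, ∃ i, (r i)⁻¹ * s ∈ M := by
  have hfin : Finite (N ⧸ M.subgroupOf N) := by
    refine Nat.finite_of_card_ne_zero ?_
    exact h.fin
  obtain ⟨n, ⟨e⟩⟩ := hfin.exists_equiv_fin
  refine ⟨n, fun i => ((e.symm i).out : N), fun i => ((e.symm i).out).2, fun i j hij => ?_,
    fun s hs => ?_⟩
  · have h1 : ((e.symm i).out)⁻¹ * (e.symm j).out ∈ M.subgroupOf N := by
      rw [Subgroup.mem_subgroupOf]
      exact hij
    rw [← QuotientGroup.eq, QuotientGroup.out_eq', QuotientGroup.out_eq'] at h1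
    exact e.symm.injective h1
  · refine ⟨e (QuotientGroup.mk ⟨s, hs⟩), ?_⟩
    have h1 : ((e.symm (e (QuotientGroup.mk (⟨s, hs⟩ : N)))).out)⁻¹ * (⟨s, hs⟩ : N)
        ∈ M.subgroupOf N := by
      rw [← QuotientGroup.eq, QuotientGroup.out_eq', Equiv.symm_apply_apply]
    rw [Subgroup.mem_subgroupOf] at h1
    exact h1

theorem FiNor.norm_iff (h : FiNor M N) {f : G} (hf : f ∈ N) (s : G) :
    s ∈ M ↔ f * s * f⁻¹ ∈ M := by
  refine ⟨h.nor f hf s, fun hs => ?_⟩
  have h1 := h.nor f⁻¹ (N.inv_mem hf) _ hs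
  have e : f⁻¹ * (f * s * f⁻¹) * f⁻¹⁻¹ = s := by group
  rwa [e] at h1

end

section
variable {A : Type u} [CStarAlgebra A] {K : Type v} [NormedAddCommGroup K]
  [InnerProductSpace ℂ K] [CompleteSpace K]
  {G : Type w} [Group G] [TopologicalSpace G] [IsTopologicalGroup G] {T : TrAlg A K}
  (S : TrAct G T)

/-- commuting with late unitaries implies commuting with late self-adjoint contractions -/
theorem TrAct.comm_late_sa (N : Subgroup G) {d : A} (hd : S.Intw (N : Set G) 1 d) (ε : ℝ)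
    (hε : 0 < ε) : ∃ (D : Set G) (κ : ℝ), IsCompact D ∧ D ⊆ (N : Set G) ∧ 0 < κ ∧
      ∀ x : A, IsSelfAdjoint x → S.NE (fun _ => 1) D κ x → ‖T.ι (d * x - x * d)‖ ≤ ε := by
  obtain ⟨R, hR⟩ : ∃ R : ℝ, R = 2 * (‖d‖ + 1) / ε := ⟨_, rfl⟩
  have hR0 : 0 < R := by rw [hR]; positivity
  have hRε : ‖d‖ / R ≤ ε / 2 := by
    rw [hR, div_div_eq_mul_div, div_le_div_iff₀ (by positivity) (by norm_num)]
    nlinarith [norm_nonneg d]
  obtain ⟨D, κ, hD, hDN, hκ, h1⟩ := hd (ε / R) (by positivity)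
  refine ⟨D, κ * R / 2, hD, hDN, by positivity, fun x hx hxn => ?_⟩
  obtain ⟨U, hU1, hU2, hU3, hU4⟩ := T.exists_cayley x hx R hR0
  have hUn : S.IsNU D κ U := by
    refine ⟨hU1, hU2, fun s hs => ?_⟩
    refine (hU4 (S.α s)).trans ?_
    have h2 := hxn.ne s hs
    rw [one_smul] at h2
    calc 2 / R * ‖T.ι (S.α s x - x)‖ ≤ 2 / R * (κ * R / 2) :=
          mul_le_mul_of_nonneg_left h2 (by positivity)
      _ = κ := by field_simp
  have hc1 := h1 U hUn
  have hc2 := h1 (star U) hUn.star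
  rw [S.one] at hc1 hc2
  obtain ⟨y, hy⟩ : ∃ y : A, y = x - ((R / 4 : ℝ) * (-Complex.I)) • (U - star U) := ⟨_, rfl⟩
  rw [← hy] at hU3
  have hxx : ‖T.ι (x * x)‖ ≤ 1 := by
    refine (T.norm_le _).trans ((norm_mul_le _ _).trans ?_)
    calc ‖x‖ * ‖x‖ ≤ 1 * 1 := mul_le_mul hxn.le hxn.le (norm_nonneg _) zero_le_one
      _ = 1 := one_mul 1
  have hy1 : ‖T.ι y‖ ≤ 1 / (2 * R) :=
    hU3.trans (div_le_div_of_nonneg_right hxx (by positivity))
  have e : d * x - x * d = (d * y - y * d)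
      + ((R / 4 : ℝ) * (-Complex.I)) • (-(U * d - d * U) + (star U * d - d * star U)) := by
    have e1 : x = y + ((R / 4 : ℝ) * (-Complex.I)) • (U - star U) := by rw [hy]; abel
    conv_lhs => rw [e1]
    rw [mul_add, add_mul, mul_smul_comm, smul_mul_assoc, mul_sub, sub_mul, smul_sub, smul_sub,
      smul_add, smul_neg, smul_sub, smul_sub]
    abel
  rw [e, map_add, map_smul]
  refine (norm_add_le _ _).trans ?_
  have h3 : ‖T.ι (d * y - y * d)‖ ≤ ε / 2 := by
    rw [map_sub]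
    refine (norm_sub_le _ _).trans ?_
    have h4 := T.mul_le d y
    have h5 := T.mul_le' y d
    have h6 : ‖d‖ * ‖T.ι y‖ ≤ ‖d‖ * (1 / (2 * R)) := mul_le_mul_of_nonneg_left hy1 (norm_nonneg _)
    have h7 : ‖T.ι y‖ * ‖d‖ ≤ (1 / (2 * R)) * ‖d‖ := mul_le_mul_of_nonneg_right hy1 (norm_nonneg _)
    have h8 : ‖d‖ * (1 / (2 * R)) + (1 / (2 * R)) * ‖d‖ = ‖d‖ / R := by
      field_simp
      ring
    linarith
  have h9 : ‖(((R / 4 : ℝ) : ℂ) * (-Complex.I)) • T.ι (-(U * d - d * U)
      + (star U * d - d * star U))‖ ≤ ε / 2 := by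
    rw [norm_smul, norm_mul, norm_neg, Complex.norm_I, mul_one, Complex.norm_real,
      Real.norm_of_nonneg (by positivity)]
    have h10 : ‖T.ι (-(U * d - d * U) + (star U * d - d * star U))‖ ≤ ε / R + ε / R := by
      rw [map_add, map_neg]
      refine (norm_add_le _ _).trans ?_
      rw [norm_neg]
      exact add_le_add hc1 hc2
    calc R / 4 * _ ≤ R / 4 * (ε / R + ε / R) := mul_le_mul_of_nonneg_left h10 (by positivity)
      _ = ε / 2 := by field_simp; ring
  linarith

/-- commuting with late unitaries implies commuting with late contractions -/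
theorem TrAct.comm_late (N : Subgroup G) {d : A} (hd : S.Intw (N : Set G) 1 d) (ε : ℝ)
    (hε : 0 < ε) : ∃ (D : Set G) (κ : ℝ), IsCompact D ∧ D ⊆ (N : Set G) ∧ 0 < κ ∧
      ∀ x : A, S.NE (fun _ => 1) D κ x → ‖T.ι (d * x - x * d)‖ ≤ ε := by
  obtain ⟨D, κ, hD, hDN, hκ, h1⟩ := S.comm_late_sa N hd (ε / 2) (by positivity)
  refine ⟨D, κ, hD, hDN, hκ, fun x hx => ?_⟩
  have hns : ‖star x‖ ≤ 1 := by rw [norm_star]; exact hx.le
  have hxs : ∀ s ∈ D, ‖T.ι (S.α s (star x) - star x)‖ ≤ κ := by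
    intro s hs
    rw [map_star, ← star_sub, T.norm_star]
    have h2 := hx.ne s hs
    rwa [one_smul] at h2
  have hxx : ∀ s ∈ D, ‖T.ι (S.α s x - x)‖ ≤ κ := by
    intro s hs
    have h2 := hx.ne s hs
    rwa [one_smul] at h2
  obtain ⟨a, ha⟩ : ∃ a : A, a = (2⁻¹ : ℂ) • (x + star x) := ⟨_, rfl⟩
  obtain ⟨b, hb⟩ : ∃ b : A, b = (-Complex.I * 2⁻¹ : ℂ) • (x - star x) := ⟨_, rfl⟩
  have hasa : IsSelfAdjoint a := by
    rw [isSelfAdjoint_iff, ha, star_smul, star_add, star_star, add_comm (star x)]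
    congr 1
    simp
  have hbsa : IsSelfAdjoint b := by
    rw [isSelfAdjoint_iff, hb, star_smul, star_sub, star_star, ← neg_sub x (star x), smul_neg,
      ← neg_smul]
    congr 1
    simp
  have hn2 : ‖(2⁻¹ : ℂ)‖ = 2⁻¹ := by simp
  have hn3 : ‖(-Complex.I * 2⁻¹ : ℂ)‖ = 2⁻¹ := by simp
  have ha1 : S.NE (fun _ => 1) D κ a := by
    refine ⟨?_, fun s hs => ?_⟩
    · rw [ha, norm_smul, hn2]
      have := norm_add_le x (star x)
      have := hx.le
      linarith
    · have e : S.α s a - (1 : ℂ) • a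
          = (2⁻¹ : ℂ) • ((S.α s x - x) + (S.α s (star x) - star x)) := by
        rw [one_smul, ha, map_smul, map_add, ← smul_sub]
        congr 1
        abel
      rw [e, map_smul, norm_smul, hn2, map_add]
      have h2 := norm_add_le (T.ι (S.α s x - x)) (T.ι (S.α s (star x) - star x))
      have h3 := hxx s hs
      have h4 := hxs s hs
      linarith
  have hb1 : S.NE (fun _ => 1) D κ b := by
    refine ⟨?_, fun s hs => ?_⟩
    · rw [hb, norm_smul, hn3]
      have := norm_sub_le x (star x)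
      have := hx.le
      linarith
    · have e : S.α s b - (1 : ℂ) • b
          = (-Complex.I * 2⁻¹ : ℂ) • ((S.α s x - x) - (S.α s (star x) - star x)) := by
        rw [one_smul, hb, map_smul, map_sub, ← smul_sub]
        congr 1
        abel
      rw [e, map_smul, norm_smul, hn3, map_sub]
      have h2 := norm_sub_le (T.ι (S.α s x - x)) (T.ι (S.α s (star x) - star x))
      have h3 := hxx s hs
      have h4 := hxs s hs
      linarith
  have hxab : x = a + Complex.I • b := by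
    have e1 : Complex.I * (-Complex.I * 2⁻¹) = (2⁻¹ : ℂ) := by
      rw [← mul_assoc, mul_neg, Complex.I_mul_I, neg_neg, one_mul]
    rw [ha, hb, smul_smul, e1, ← smul_add, add_add_sub_cancel, ← two_smul ℂ x, smul_smul]
    norm_num
  have e : d * x - x * d = (d * a - a * d) + Complex.I • (d * b - b * d) := by
    conv_lhs => rw [hxab]
    rw [mul_add, add_mul, mul_smul_comm, smul_mul_assoc, smul_sub]
    abel
  rw [e, map_add, map_smul]
  refine (norm_add_le _ _).trans ?_
  rw [norm_smul, Complex.norm_I, one_mul]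
  have h5 := h1 a hasa ha1
  have h6 := h1 b hbsa hb1
  linarith

end

end Pool.Agent.AbCoc
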