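import Pool.Agent.Lib_MP_418a80_con.Star
import Pool.Agent.Lib_MP_418a80_on.OnSca

/-!
# [CON] Star2: `StarP N` (end)
-/

set_option autoImplicit false
set_option linter.unusedVariables false
set_option linter.unusedSectionVars false

open Topology Filter MeasureTheory
open scoped RealInnerProductSpace ComplexConjugate Pointwise

namespace Pool.Agent.AbCoc

universe u v w z

section
variable {A : Type u} [CStarAlgebra A] {K : Type v} [NormedAddCommGroup K]
  [InnerProductSpace ℂ K] [CompleteSpace K]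
  {G : Type w} [Group G] [TopologicalSpace G] [IsTopologicalGroup G] {T : TrAlg A K}
  (S : TrAct G T)

/-- the translates of a near-`M`-invariant unitary -/
theorem TrAct.sum_reps_near {M N : Subgroup G} (hfi : FiNor M N) {n : ℕ} (r : Fin n → G)
    (hrN : ∀ i, r i ∈ N) (hr1 : ∀ i j, (r i)⁻¹ * r j ∈ M → i = j)
    (hr2 : ∀ s ∈ N, ∃ i, (r i)⁻¹ * s ∈ M) {U : A} {κ : ℝ} {s : G} (hs : s ∈ N)
    (hU : ∀ i j, (r i)⁻¹ * s * r j ∈ M → ‖T.ι (S.α ((r i)⁻¹ * s * r j) U - U)‖ ≤ κ) :
    ‖T.ι (S.α s (∑ i, S.α (r i) U) - ∑ i, S.α (r i) U)‖ ≤ n * κ := by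
  choose σ hσ using fun i => hr2 (s * r i) (N.mul_mem hs (hrN i))
  have hinj : Function.Injective σ := by
    intro i j hij
    refine hr1 i j ?_
    have h1 := hσ i
    have h2 := hσ j
    rw [← hij] at h2
    have h3 := M.mul_mem (M.inv_mem h1) h2
    have e : ((r (σ i))⁻¹ * (s * r i))⁻¹ * ((r (σ i))⁻¹ * (s * r j)) = (r i)⁻¹ * r j := by group
    rwa [e] at h3
  have hbij : Function.Bijective σ := Finite.injective_iff_bijective.1 hinj
  have e1 : ∑ i, S.α (r i) U = ∑ i, S.α (r (σ i)) U :=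
    (Function.Bijective.sum_comp hbij fun i => S.α (r i) U).symm
  have e2 : S.α s (∑ i, S.α (r i) U) - ∑ i, S.α (r i) U
      = ∑ i, S.α (r (σ i)) (S.α ((r (σ i))⁻¹ * s * r i) U - U) := by
    conv_lhs => rw [e1]
    rw [← e1, map_sum]
    conv_lhs => rw [e1]
    rw [← Finset.sum_sub_distrib]
    refine Finset.sum_congr rfl fun i _ => ?_
    rw [map_sub, ← S.mul, ← S.mul]
    congr 3
    group
  rw [e2, map_sum]
  refine (norm_sum_le _ _).trans ?_
  have h1 : ∀ i ∈ (Finset.univ : Finset (Fin n)),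
      ‖T.ι (S.α (r (σ i)) (S.α ((r (σ i))⁻¹ * s * r i) U - U))‖ ≤ κ := by
    intro i _
    rw [S.norm_map]
    exact hU _ _ (by rw [mul_assoc]; exact hσ i)
  refine (Finset.sum_le_sum h1).trans (le_of_eq ?_)
  rw [Finset.sum_const, Finset.card_univ, Fintype.card_fin, nsmul_eq_mul]

end

section
variable {A : Type u} [CStarAlgebra A] {K : Type v} [NormedAddCommGroup K]
  [InnerProductSpace ℂ K] [CompleteSpace K]
  {G : Type w} [Group G] [TopologicalSpace G] [IsTopologicalGroup G] [T2Space G]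
  [SecondCountableTopology G] [LocallyCompactSpace G] {T : TrAlg A K} (S : TrAct G T)

theorem TrAct.star_scalar (M N : Subgroup G) (hfi : FiNor M N) (hkey : (S.sub M).Key)
    (hno : ∀ f ∈ N, f ∉ M → ∀ z : A, (∀ s ∈ M, S.α s z = z) → S.Intw (M : Set G) f z → z = 0)
    (d : A) (hd : ∀ s ∈ M, S.α s d = d) (hi : S.Intw (N : Set G) 1 d) :
    d = T.τ d • (1 : A) := by
  classical
  obtain ⟨n, r, hrN, hr1, hr2⟩ := hfi.exists_reps
  obtain ⟨i0, hi0⟩ := hr2 1 N.one_mem
  rw [mul_one] at hi0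
  have hi0' : r i0 ∈ M := by
    have := M.inv_mem hi0
    rwa [inv_inv] at this
  have hrM : ∀ i, i ≠ i0 → r i ∉ M := by
    intro i hne hi
    exact hne (hr1 i i0 (M.mul_mem (M.inv_mem hi) hi0'))
  have hn0 : (0 : ℝ) < n := by
    have : 0 < n := Fin.pos i0
    exact_mod_cast this
  have hMN : (M : Set G) ⊆ N := hfi.le
  -- the hull
  obtain ⟨zz, -, hzfix, hzapp, hzint⟩ := S.on_center_pt M (F := Option (Fin n × Bool))
    (fun o => match o with
      | none => d
      | some (_, true) => star d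
      | some (_, false) => 1)
    (fun o => match o with
      | none => 1
      | some (i, _) => r i)
  have hlate : ∀ o : Option (Fin n × Bool), S.Intw (M : Set G) (match o with
      | none => 1
      | some (i, _) => r i) (zz o) := by
    intro o
    refine S.intw_of_late M _ _ fun ε hε => ?_
    obtain ⟨D, κ, hD, hDM, hκ, h1⟩ := hzint ε hε
    exact ⟨D, κ, hD, hDM, hκ, fun u hu => h1 u hu o⟩
  have hds : ∀ s ∈ M, S.α s (star d) = star d := fun s hs => by rw [map_star, hd s hs]
  have hrn : ∀ i, ∀ h ∈ M, (r i)⁻¹ * h * r i ∈ M := by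
    intro i h hh
    have h1 := hfi.nor (r i)⁻¹ (N.inv_mem (hrN i)) h hh
    rwa [inv_inv] at h1
  have hz0 : ∀ i, i ≠ i0 → ∀ b : Bool, zz (some (i, b)) = 0 := by
    intro i hne b
    refine hno (r i) (hrN i) (hrM i hne) _ (fun h hh => ?_) (hlate (some (i, b)))
    refine hzfix (some (i, b)) h hh (hrn i h hh) ?_
    cases b
    · exact map_one _
    · exact hds h hh
  have hzn : zz none = T.τ d • (1 : A) := by
    have hf : ∀ s ∈ M, S.α s (zz none) = zz none := fun h hh =>
      hzfix none h hh (by simpa using hh) (hd h hh)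
    have h1 := S.scalar_of_intw M hfi.closed hkey hf (hlate none)
    have h2 : T.τ (zz none) = T.τ d := by
      have h3 : ‖T.τ (zz none) - T.τ d‖ ≤ 0 := by
        refine le_of_forall_pos_le_add fun ε hε => ?_
        rw [zero_add]
        obtain ⟨I, _, u, l, hu, h0, hl, hap⟩ := hzapp ∅ isCompact_empty (Set.empty_subset _) 1
          one_pos ε hε
        have h4 : ‖T.ι (∑ i, (l i : ℂ) • (u i * d * S.α 1 (star (u i))) - zz none)‖ ≤ ε := hap none
        have h5 : T.τ (∑ i, (l i : ℂ) • (u i * d * S.α 1 (star (u i)))) = T.τ d := by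
          have h6 : ∀ i, T.τ (u i * d * S.α 1 (star (u i))) = T.τ d := by
            intro i
            rw [S.one, T.τ_mul_comm, ← mul_assoc, (hu i).uni, one_mul]
          unfold TrAlg.τ at h6 ⊢
          rw [map_sum, inner_sum]
          simp only [map_smul, inner_smul_right, h6]
          rw [← Finset.sum_mul, ← Complex.ofReal_sum, hl, Complex.ofReal_one, one_mul]
        rw [← h5, ← T.τ_sub, ← norm_neg, ← T.τ_neg, neg_sub]
        exact (T.norm_τ_le _).trans h4
      exact sub_eq_zero.1 (norm_le_zero_iff.1 h3)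
    rw [h1, h2]
  -- the estimate
  have key : ∀ ε : ℝ, 0 < ε → ‖T.ι (d - T.τ d • (1 : A))‖ ≤ n * ε + (n * ((‖d‖ + 1) * ε)
      + (‖d‖ * ε + ‖d‖ * ε) + ε) := by
    intro ε hε
    obtain ⟨D1, κ1, hD1, hD1N, hκ1, hcomm⟩ := S.comm_late N hi ε hε
    obtain ⟨D, hD⟩ : ∃ D : Set G, D = (⋃ i : Fin n, ⋃ j : Fin n,
        ((fun s => (r i)⁻¹ * s * r j) '' D1 ∩ (M : Set G))) ∪ {r i0} := ⟨_, rfl⟩
    have hDc : IsCompact D := by
      rw [hD]
      refine IsCompact.union ?_ isCompact_singleton
      refine isCompact_iUnion fun i => isCompact_iUnion fun j => ?_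
      refine (hD1.image ?_).inter_right hfi.closed
      fun_prop
    have hDM : D ⊆ (M : Set G) := by
      rw [hD]
      rintro s (hs | hs)
      · simp only [Set.mem_iUnion] at hs
        obtain ⟨i, j, h⟩ := hs
        exact h.2
      · rw [Set.mem_singleton_iff.1 hs]
        exact hi0'
    obtain ⟨I, _, U, l, hU, hl0, hl1, hap⟩ := hzapp D hDc hDM (min κ1 ε) (lt_min hκ1 hε) ε hε
    -- near-`N`-invariant contractions
    obtain ⟨X, hX⟩ : ∃ X : I → A, ∀ j, X j = ((n : ℂ)⁻¹) • ∑ i, S.α (r i) (U j) :=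
      ⟨_, fun _ => rfl⟩
    have hninv : ‖((n : ℂ)⁻¹)‖ = (n : ℝ)⁻¹ := by
      rw [norm_inv, Complex.norm_natCast]
    have hXn : ∀ j, S.NE (fun _ => 1) D1 κ1 (X j) := by
      intro j
      refine ⟨?_, fun s hs => ?_⟩
      · rw [hX, norm_smul, hninv]
        have h1 : ‖∑ i, S.α (r i) (U j)‖ ≤ n := by
          refine (norm_sum_le _ _).trans ?_
          have h2 : ∀ i ∈ (Finset.univ : Finset (Fin n)), ‖S.α (r i) (U j)‖ ≤ 1 := fun i _ =>
            (S.norm_le _ _).trans (hU j).norm_le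
          refine (Finset.sum_le_sum h2).trans (le_of_eq ?_)
          rw [Finset.sum_const, Finset.card_univ, Fintype.card_fin, nsmul_eq_mul, mul_one]
        calc (n : ℝ)⁻¹ * ‖∑ i, S.α (r i) (U j)‖ ≤ (n : ℝ)⁻¹ * n :=
              mul_le_mul_of_nonneg_left h1 (by positivity)
          _ = 1 := inv_mul_cancel₀ hn0.ne'
      · have h1 := S.sum_reps_near hfi r hrN hr1 hr2 (U := U j) (κ := κ1) (hD1N hs)
          (fun i i' hii => (((hU j).near _ (by
            rw [hD]
            refine Or.inl (Set.mem_iUnion.2 ⟨i, Set.mem_iUnion.2 ⟨i', ?_⟩⟩)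
            exact ⟨⟨s, hs, rfl⟩, hii⟩)).trans (min_le_left _ _)))
        rw [one_smul, hX, map_smul, ← smul_sub, map_smul, norm_smul, hninv]
        calc (n : ℝ)⁻¹ * _ ≤ (n : ℝ)⁻¹ * (n * κ1) :=
              mul_le_mul_of_nonneg_left h1 (by positivity)
          _ = κ1 := by rw [← mul_assoc, inv_mul_cancel₀ hn0.ne', one_mul]
    have hsum : ‖T.ι (∑ j, (l j : ℂ) • ((d * X j - X j * d) * star (U j)))‖ ≤ ε := by
      rw [map_sum]
      simp only [map_smul]
      refine norm_conv_le l hl0 hl1 _ _ fun j => ?_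
      rw [T.norm_mul_unitary _ (by rw [star_star]; exact (hU j).uni)]
      exact hcomm _ (hXn j)
    -- the sums
    obtain ⟨P, hP⟩ : ∃ P : Fin n → A, ∀ i, P i = ∑ j, (l j : ℂ) • (S.α (r i) (U j) * star (U j)) :=
      ⟨_, fun _ => rfl⟩
    obtain ⟨Q, hQ⟩ : ∃ Q : Fin n → A, ∀ i, Q i = ∑ j, (l j : ℂ) •
        (S.α (r i) (U j) * d * star (U j)) := ⟨_, fun _ => rfl⟩
    have hPs : ∀ i, i ≠ i0 → ‖T.ι (P i)‖ ≤ ε := by
      intro i hne
      have h1 : ‖T.ι (∑ j, (l j : ℂ) • (U j * 1 * S.α (r i) (star (U j))) - zz (some (i, false)))‖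
          ≤ ε := hap (some (i, false))
      rw [hz0 i hne, sub_zero, ← T.norm_star] at h1
      have e : star (∑ j, (l j : ℂ) • (U j * 1 * S.α (r i) (star (U j)))) = P i := by
        rw [hP, star_sum]
        refine Finset.sum_congr rfl fun j _ => ?_
        rw [star_smul, Complex.star_def, Complex.conj_ofReal, mul_one, star_mul, map_star,
          star_star]
      rwa [e] at h1
    have hQs : ∀ i, i ≠ i0 → ‖T.ι (Q i)‖ ≤ ε := by
      intro i hne
      have h1 : ‖T.ι (∑ j, (l j : ℂ) • (U j * star d * S.α (r i) (star (U j)))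
          - zz (some (i, true)))‖ ≤ ε := hap (some (i, true))
      rw [hz0 i hne, sub_zero, ← T.norm_star] at h1
      have e : star (∑ j, (l j : ℂ) • (U j * star d * S.α (r i) (star (U j)))) = Q i := by
        rw [hQ, star_sum]
        refine Finset.sum_congr rfl fun j _ => ?_
        rw [star_smul, Complex.star_def, Complex.conj_ofReal, star_mul, star_mul, map_star,
          star_star, star_star, mul_assoc]
      rwa [e] at h1
    have hlc : ∑ j, (l j : ℂ) = 1 := by rw [← Complex.ofReal_sum, hl1, Complex.ofReal_one]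
    have hU0 : ∀ j, ‖T.ι (S.α (r i0) (U j) - U j)‖ ≤ ε := fun j =>
      ((hU j).near _ (by rw [hD]; exact Or.inr rfl)).trans (min_le_right _ _)
    have hP0 : ‖T.ι (P i0 - 1)‖ ≤ ε := by
      have e : P i0 - 1 = ∑ j, (l j : ℂ) • ((S.α (r i0) (U j) - U j) * star (U j)) := by
        have e1 : (1 : A) = ∑ j, (l j : ℂ) • (1 : A) := by rw [← Finset.sum_smul, hlc, one_smul]
        conv_lhs => rw [e1]
        rw [hP, ← Finset.sum_sub_distrib]
        refine Finset.sum_congr rfl fun j _ => ?_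
        rw [← smul_sub, sub_mul, (hU j).uni']
      rw [e, map_sum]
      simp only [map_smul]
      refine norm_conv_le l hl0 hl1 _ _ fun j => ?_
      rw [T.norm_mul_unitary _ (by rw [star_star]; exact (hU j).uni)]
      exact hU0 j
    have hQ0 : ‖T.ι (Q i0 - T.τ d • (1 : A))‖ ≤ ‖d‖ * ε + ε := by
      have h1 : ‖T.ι (∑ j, (l j : ℂ) • (U j * d * S.α 1 (star (U j))) - zz none)‖ ≤ ε := hap none
      simp only [S.one] at h1
      rw [hzn] at h1
      have e : Q i0 - T.τ d • (1 : A)
          = ∑ j, (l j : ℂ) • ((S.α (r i0) (U j) - U j) * (d * star (U j)))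
            + (∑ j, (l j : ℂ) • (U j * d * star (U j)) - T.τ d • (1 : A)) := by
        rw [← add_sub_assoc, ← Finset.sum_add_distrib, hQ]
        congr 1
        refine Finset.sum_congr rfl fun j _ => ?_
        rw [← smul_add, sub_mul, ← mul_assoc, ← mul_assoc, sub_add_cancel]
      rw [e, map_add]
      refine (norm_add_le _ _).trans (add_le_add ?_ h1)
      rw [map_sum]
      simp only [map_smul]
      refine norm_conv_le l hl0 hl1 _ _ fun j => ?_
      refine (T.mul_le' _ _).trans ?_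
      have h2 : ‖d * star (U j)‖ ≤ ‖d‖ := by
        refine (norm_mul_le _ _).trans ?_
        calc ‖d‖ * ‖star (U j)‖ ≤ ‖d‖ * 1 :=
              mul_le_mul_of_nonneg_left (hU j).norm_star_le (norm_nonneg _)
          _ = ‖d‖ := mul_one _
      calc _ ≤ ε * ‖d‖ := mul_le_mul (hU0 j) h2 (norm_nonneg _) hε.le
        _ = ‖d‖ * ε := mul_comm _ _
    -- the identity
    have e : (n : ℂ) • ∑ j, (l j : ℂ) • ((d * X j - X j * d) * star (U j))
        = ∑ i, (d * P i - Q i) := by
      have e1 : ∀ j, (n : ℂ) • ((l j : ℂ) • ((d * X j - X j * d) * star (U j)))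
          = ∑ i, (l j : ℂ) • (d * (S.α (r i) (U j) * star (U j))
            - S.α (r i) (U j) * d * star (U j)) := by
        intro j
        have e2 : (d * X j - X j * d) * star (U j) = ((n : ℂ)⁻¹) •
            ∑ i, (d * (S.α (r i) (U j) * star (U j)) - S.α (r i) (U j) * d * star (U j)) := by
          rw [hX, mul_smul_comm, smul_mul_assoc, ← smul_sub, smul_mul_assoc]
          congr 1
          rw [Finset.mul_sum, Finset.sum_mul, ← Finset.sum_sub_distrib, Finset.sum_mul]
          refine Finset.sum_congr rfl fun i _ => ?_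
          rw [sub_mul, mul_assoc d]
        rw [e2, smul_comm (l j : ℂ), smul_smul, mul_inv_cancel₀ (by exact_mod_cast hn0.ne'),
          one_smul, Finset.smul_sum]
      rw [Finset.smul_sum, Finset.sum_congr rfl fun j _ => e1 j, Finset.sum_comm]
      refine Finset.sum_congr rfl fun i _ => ?_
      rw [hP, hQ, Finset.mul_sum, ← Finset.sum_sub_distrib]
      refine Finset.sum_congr rfl fun j _ => ?_
      rw [smul_sub, mul_smul_comm]
    have e3 : d - T.τ d • (1 : A) = (n : ℂ) • ∑ j, (l j : ℂ) • ((d * X j - X j * d) * star (U j))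
        - (∑ i ∈ Finset.univ.erase i0, (d * P i - Q i) + (d * (P i0 - 1)
          - (Q i0 - T.τ d • (1 : A)))) := by
      rw [e, ← Finset.sum_erase_add _ _ (Finset.mem_univ i0), mul_sub, mul_one]
      abel
    rw [e3, map_sub]
    refine (norm_sub_le _ _).trans (add_le_add ?_ ?_)
    · rw [map_smul, norm_smul, Complex.norm_natCast]
      exact mul_le_mul_of_nonneg_left hsum hn0.le
    · rw [map_add]
      refine (norm_add_le _ _).trans ?_
      have h1 : ‖T.ι (∑ i ∈ Finset.univ.erase i0, (d * P i - Q i))‖ ≤ n * ((‖d‖ + 1) * ε) := by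
        rw [map_sum]
        have h2 : ∀ i ∈ (Finset.univ : Finset (Fin n)).erase i0,
            ‖T.ι (d * P i - Q i)‖ ≤ (‖d‖ + 1) * ε := by
          intro i hi
          have hne := Finset.ne_of_mem_erase hi
          rw [map_sub]
          refine (norm_sub_le _ _).trans ?_
          have h3 := T.mul_le d (P i)
          have h4 : ‖d‖ * ‖T.ι (P i)‖ ≤ ‖d‖ * ε :=
            mul_le_mul_of_nonneg_left (hPs i hne) (norm_nonneg _)
          have h5 := hQs i hne
          linarith
        refine (norm_sum_le_of_le _ h2).trans ?_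
        rw [Finset.sum_const, nsmul_eq_mul]
        refine mul_le_mul_of_nonneg_right ?_ (by positivity)
        have h6 : ((Finset.univ : Finset (Fin n)).erase i0).card ≤ n := by
          refine (Finset.card_erase_le).trans (le_of_eq ?_)
          rw [Finset.card_univ, Fintype.card_fin]
        exact_mod_cast h6
      have h7 : ‖T.ι (d * (P i0 - 1) - (Q i0 - T.τ d • (1 : A)))‖
          ≤ ‖d‖ * ε + (‖d‖ * ε + ε) := by
        rw [map_sub]
        refine (norm_sub_le _ _).trans (add_le_add ?_ hQ0)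
        exact (T.mul_le _ _).trans (mul_le_mul_of_nonneg_left hP0 (norm_nonneg _))
      linarith
  have h0 : ‖T.ι (d - T.τ d • (1 : A))‖ ≤ 0 := by
    refine le_of_forall_pos_le_add fun ε hε => ?_
    obtain ⟨C, hC⟩ : ∃ C : ℝ, C = n + (n * (‖d‖ + 1) + (‖d‖ + ‖d‖) + 1) := ⟨_, rfl⟩
    have hC0 : 0 < C := by rw [hC]; positivity
    have h1 := key (ε / C) (by positivity)
    have e : n * (ε / C) + (n * ((‖d‖ + 1) * (ε / C)) + (‖d‖ * (ε / C) + ‖d‖ * (ε / C)) + ε / C)
        = C * (ε / C) := by rw [hC]; ring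
    rw [e, mul_div_cancel₀ _ hC0.ne'] at h1
    linarith
  have h1 : T.ι (d - T.τ d • (1 : A)) = T.ι 0 := by
    rw [map_zero]
    exact norm_le_zero_iff.1 h0
  exact sub_eq_zero.1 (T.inj h1)

/-- **`StarP`** -/
theorem TrAct.starP_of (hF : S.FixK) (N : Subgroup G)
    (hkey : ∀ M : Subgroup G, FiNor M N → (S.sub M).Key)
    (hT : ∀ M : Subgroup G, FiNor M N → S.NTower M) : S.StarP N := by
  intro M hfi d hd hi
  refine S.star_scalar M N hfi (hkey M hfi) (fun f hf hfM z hz hzi => ?_) d hd hi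
  by_contra h0
  have hzz : ∀ s ∈ M, S.α s (z * star z) = z * star z := fun s hs => by
    rw [map_mul, map_star, hz s hs]
  obtain ⟨w, h1, h2, hw, hfix⟩ := S.exists_bw_c M (g := f)
    (fun h => S.scalar_of_intw M hfi.closed (hkey M hfi) hzz h) hzi h0
  exact hfM (S.mem_of_ntower hF (hT M hfi) w h1 h2 (fun s hs => hw s (hz s hs)) f
    (hfi.norm_iff hf) hfix)

/-- no intertwiners off `L` -/
theorem TrAct.no_intw_of_dtower (hF : S.FixK) (L : Subgroup G) (hstar : S.StarP L)
    (hT : S.DTower L) (hcms : ∀ g, ∃ M, Cms L M g) (g : G) (hg : g ∉ L) (z : A)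
    (hz : ∀ h ∈ L, g⁻¹ * h * g ∈ L → S.α h z = z) (hzi : S.Intw (L : Set G) g z) : z = 0 := by
  by_contra h0
  obtain ⟨M, hM⟩ := hcms g
  have hzM : ∀ s ∈ M, S.α s z = z := fun s hs => hz s (hM.fi.le hs) (hM.inv s hs)
  have hzz : ∀ s ∈ M, S.α s (z * star z) = z * star z := fun s hs => by
    rw [map_mul, map_star, hzM s hs]
  obtain ⟨w, h1, h2, hw, hfix⟩ := S.exists_bw_c L (g := g) (fun h => hstar M hM.fi _ hzz h) hzi h0
  exact hg (S.mem_of_dtower hF hT w h1 h2 g M hM
    (fun t ht htg => hw t (hz t ht htg)) hfix)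

end

end Pool.Agent.AbCoc
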